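import Pool.Agent.P8H56.CT.Pos
import Pool.Agent.Helper111.CT

set_option autoImplicit false

/-!
# The action on the poset of bases
-/

namespace Pool.Agent.P8H56.CT

open Multiset Relation Equiv

variable {S : Finset ℕ}

/-- postcomposition with a permutation -/
def act (g : Perm ℤ) (x : Multiset (ℤ → ℤ)) : Multiset (ℤ → ℤ) := x.map (fun a => g ∘ a)

theorem act_one (x : Multiset (ℤ → ℤ)) : act 1 x = x := by
  unfold act
  have : (fun a : ℤ → ℤ => (1 : Perm ℤ) ∘ a) = id := by funext a; rfl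
  rw [this, Multiset.map_id]

theorem act_mul (g h : Perm ℤ) (x : Multiset (ℤ → ℤ)) : act (g * h) x = act g (act h x) := by
  unfold act
  rw [Multiset.map_map]
  rfl

theorem card_act (g : Perm ℤ) (x : Multiset (ℤ → ℤ)) : (act g x).card = x.card := by
  unfold act; rw [Multiset.card_map]

theorem act_add (g : Perm ℤ) (x y : Multiset (ℤ → ℤ)) : act g (x + y) = act g x + act g y := by
  unfold act; rw [Multiset.map_add]

theorem act_cons (g : Perm ℤ) (a : ℤ → ℤ) (y : Multiset (ℤ → ℤ)) :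
    act g (a ::ₘ y) = (g ∘ a) ::ₘ act g y := by
  unfold act; rw [Multiset.map_cons]

theorem act_spl (g : Perm ℤ) (p : ℕ) (a : ℤ → ℤ) : act g (spl p a) = spl p (g ∘ a) := by
  unfold act spl
  rw [Multiset.map_map]
  rfl

theorem Step.act {x y : Multiset (ℤ → ℤ)} (h : Step S x y) (g : Perm ℤ) :
    Step S (act g x) (act g y) := by
  obtain ⟨p, hp, a, t, rfl, rfl⟩ := h
  rw [act_cons, act_add, act_spl]
  exact step_spl hp _ _

theorem Le.act {x y : Multiset (ℤ → ℤ)} (h : Le S x y) (g : Perm ℤ) :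
    Le S (act g x) (act g y) := by
  induction h with
  | refl => exact Le.refl _
  | tail _ h ih => exact ih.trans (Le.of_step (h.act g))

theorem cnt_act (g : Perm ℤ) (n : ℤ) (x : Multiset (ℤ → ℤ)) :
    cnt n (act g x) = cnt (g⁻¹ n) x := by
  classical
  unfold cnt act
  rw [Multiset.countP_map, Multiset.countP_eq_card_filter]
  congr 1
  apply Multiset.filter_congr
  intro a _
  constructor
  · rintro ⟨k, hk⟩
    exact ⟨k, by rw [← hk]; simp⟩
  · rintro ⟨k, hk⟩
    exact ⟨k, by simp [hk]⟩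

theorem gd_act (g : Perm ℤ) {x : Multiset (ℤ → ℤ)} (h : Gd x) : Gd (act g x) := by
  refine ⟨fun b hb => ?_, fun n => ?_⟩
  · unfold act at hb
    obtain ⟨a, ha, rfl⟩ := Multiset.mem_map.1 hb
    exact g.injective.comp (h.1 a ha)
  · rw [cnt_act]; exact h.2 _

/-! ### Partitions into residue classes -/

theorem aff_px (hS : ∀ p ∈ S, Nat.Prime p) {y : Multiset (ℤ → ℤ)} (hg : Gd y)
    (hc : ∀ n, cnt n y = 1) (hy : ∀ b ∈ y, ∃ m r : ℕ, Sm S m ∧ r < m ∧ b = sb id m r) :
    PX S y := by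
  have h1 : ∃ L, Sm S L ∧ ∀ b ∈ y, ∃ m r : ℕ, m ∣ L ∧ r < m ∧ b = sb id m r := by
    clear hg hc
    induction y using Multiset.induction with
    | empty => exact ⟨1, Sm.one, fun b hb => absurd hb (Multiset.notMem_zero b)⟩
    | cons a t ih =>
      obtain ⟨L, hL, h⟩ := ih fun b hb => hy b (Multiset.mem_cons_of_mem hb)
      obtain ⟨m, r, hm, hr, rfl⟩ := hy a (Multiset.mem_cons_self _ _)
      refine ⟨m * L, hm.mul hL, fun b hb => ?_⟩
      rcases Multiset.mem_cons.1 hb with rfl | hb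
      · exact ⟨m, r, Dvd.intro _ rfl, hr, rfl⟩
      · obtain ⟨m', r', h1, h2, rfl⟩ := h b hb
        exact ⟨m', r', h1.mul_left _, h2, rfl⟩
  obtain ⟨L, hL, hyL⟩ := h1
  have h2 : ∃ y', Le S y y' ∧ ∀ b ∈ y', ∃ ρ < L, b = sb id L ρ := by
    clear hg hc hy
    induction y using Multiset.induction with
    | empty => exact ⟨0, Le.refl _, fun b hb => absurd hb (Multiset.notMem_zero b)⟩
    | cons a t ih =>
      obtain ⟨t', ht, h⟩ := ih fun b hb => hyL b (Multiset.mem_cons_of_mem hb)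
      obtain ⟨m, r, ⟨l, hl⟩, hr, rfl⟩ := hyL a (Multiset.mem_cons_self _ _)
      have hls : Sm S l := hL.of_dvd (Dvd.intro_left m hl.symm)
      refine ⟨spl l (sb id m r) + t', ?_, fun b hb => ?_⟩
      · rw [← Multiset.singleton_add]
        exact (le_spl hls _).add ht
      · rcases Multiset.mem_add.1 hb with hb | hb
        · obtain ⟨s, hs, rfl⟩ := mem_spl.1 hb
          refine ⟨m * s + r, ?_, ?_⟩
          · rw [hl]
            calc m * s + r < m * s + m := by omega
              _ = m * (s + 1) := by ring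
              _ ≤ m * l := Nat.mul_le_mul_left m hs
          · rw [sb_sb, hl]
        · exact h b hb
  obtain ⟨y', hle, hy'⟩ := h2
  have hg' : Gd y' := (Le.gd_iff hS hle).1 hg
  have hc' : ∀ n, cnt n y' = 1 := fun n => by rw [Le.cnt_eq hS hle hg, hc]
  have hLpos : 0 < L := Nat.pos_of_ne_zero hL.1
  refine ⟨L, hL, ?_⟩
  have e : y' = spl L id := by
    rw [Multiset.Nodup.ext hg'.nodup ((px_spl hL).gd hS).nodup]
    intro b
    constructor
    · intro hb
      obtain ⟨ρ, hρ, rfl⟩ := hy' b hb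
      exact mem_spl.2 ⟨ρ, hρ, rfl⟩
    · intro hb
      obtain ⟨ρ, hρ, rfl⟩ := mem_spl.1 hb
      have h3 : 0 < cnt (ρ : ℤ) y' := by rw [hc']; exact one_pos
      obtain ⟨b, hb, k, hk⟩ := cnt_pos.1 h3
      obtain ⟨ρ', hρ', rfl⟩ := hy' b hb
      have h4 : (L : ℤ) * k + ρ' = ρ := hk
      have h5 : (ρ' : ℤ) = ρ := by
        have e1 : ((L : ℤ) * k + ρ') % L = ρ' := by
          rw [add_comm, Int.add_mul_emod_self_left]
          exact Int.emod_eq_of_lt (by positivity) (by exact_mod_cast hρ')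
        have e2 : (ρ : ℤ) % L = ρ := Int.emod_eq_of_lt (by positivity) (by exact_mod_cast hρ)
        rw [h4, e2] at e1
        exact e1.symm
      have h6 : ρ' = ρ := by exact_mod_cast h5
      rw [← h6]; exact hb
  rw [← e]; exact hle

variable (S) in
/-- positive integers with all prime factors in `S` -/
def Mo (m : ℤ) : Prop := 0 < m ∧ Sm S m.toNat

theorem exists_of_mo {m : ℤ} (h : Mo S m) : ∃ n : ℕ, m = n ∧ Sm S n :=
  ⟨m.toNat, (Int.toNat_of_nonneg h.1.le).symm, h.2⟩

theorem mo_of {n : ℕ} (h : Sm S n) : Mo S (n : ℤ) :=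
  ⟨by exact_mod_cast Nat.pos_of_ne_zero h.1, by simpa using h⟩

open Pool.Agent.Helper111.CT in
theorem px_act (hS : ∀ p ∈ S, Nat.Prime p) {g : Perm ℤ} (hg : Full (Mo S) g)
    {x : Multiset (ℤ → ℤ)} (hx : PX S x) : PX S (act g x) := by
  obtain ⟨M₁, hM₁, hx⟩ := hx
  obtain ⟨M, hM, hMM, hg⟩ := hg
  obtain ⟨M, rfl, hMS⟩ := exists_of_mo hMM
  have hM0 : 0 < M := by exact_mod_cast hM
  have hx2 : Le S x (spl (M * M₁) id) := hx.trans (by
    rw [mul_comm]; exact spl_le_spl_mul hMS _)
  refine PX.of_le ?_ (hx2.act g)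
  have hsm := hMS.mul hM₁
  apply aff_px hS (gd_act g ((px_spl hsm).gd hS))
  · intro n
    rw [cnt_act, px_cnt hS (px_spl hsm)]
  · intro b hb
    unfold act at hb
    obtain ⟨a, ha, rfl⟩ := Multiset.mem_map.1 hb
    obtain ⟨i, hi, rfl⟩ := mem_spl.1 ha
    obtain ⟨c, m, h1, h2, h3, h4⟩ := hg (i % M : ℕ) (by positivity)
      (by exact_mod_cast Nat.mod_lt i hM0)
    obtain ⟨m, rfl, hm⟩ := exists_of_mo h3
    obtain ⟨c, rfl⟩ := Int.eq_ofNat_of_zero_le h1
    have h2' : c < m := by exact_mod_cast h2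
    have hq : i / M < M₁ := Nat.div_lt_of_lt_mul hi
    refine ⟨m * M₁, m * (i / M) + c, hm.mul hM₁, ?_, ?_⟩
    · calc m * (i / M) + c < m * (i / M) + m := by omega
        _ = m * (i / M + 1) := by ring
        _ ≤ m * M₁ := Nat.mul_le_mul_left m hq
    · funext z
      have h5 := h4 ((i / M : ℕ) + M₁ * z)
      have h6 : ((i % M : ℕ) : ℤ) + M * (((i / M : ℕ) : ℤ) + M₁ * z) = (M * M₁ : ℕ) * z + i := by
        have : (i : ℤ) = (i % M : ℕ) + M * (i / M : ℕ) := by
          exact_mod_cast (Nat.mod_add_div i M).symm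
        rw [this]; push_cast; ring
      rw [h6] at h5
      show g ((M * M₁ : ℕ) * z + i) = ((m * M₁ : ℕ) : ℤ) * z + ((m * (i / M) + c : ℕ) : ℤ)
      rw [h5]; push_cast; ring

/-! ### Transitivity -/

/-- refinements of multisets of pairs -/
theorem lift_pairs (hS : ∀ p ∈ S, Nat.Prime p) {x x' : Multiset (ℤ → ℤ)} (h : Le S x x') :
    ∀ w : Multiset ((ℤ → ℤ) × (ℤ → ℤ)), w.map Prod.fst = x →
      ∃ w' : Multiset ((ℤ → ℤ) × (ℤ → ℤ)), w'.map Prod.fst = x' ∧
        Le S (w.map Prod.snd) (w'.map Prod.snd) ∧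
        (∀ g : ℤ → ℤ, (∀ e ∈ w', g ∘ e.1 = e.2) → ∀ e ∈ w, g ∘ e.1 = e.2) ∧
        (∀ g : ℤ → ℤ, (∀ e ∈ w', g ∘ e.2 = e.1) → ∀ e ∈ w, g ∘ e.2 = e.1) := by
  induction h with
  | refl => exact fun w hw => ⟨w, hw, Le.refl _, fun _ h => h, fun _ h => h⟩
  | tail _ h ih =>
    intro w hw
    obtain ⟨w₁, h1, h2, h3, h3'⟩ := ih w hw
    obtain ⟨p, hp, a, t, rfl, rfl⟩ := h
    have ha : a ∈ w₁.map Prod.fst := by rw [h1]; exact Multiset.mem_cons_self _ _
    obtain ⟨⟨a', b⟩, hab, rfl⟩ := Multiset.mem_map.1 ha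
    obtain ⟨w₂, rfl⟩ := Multiset.exists_cons_of_mem hab
    rw [Multiset.map_cons] at h1 h2
    simp only [Multiset.cons_inj_right] at h1
    subst h1
    have key : ∀ (p : ℕ) (c d g : ℤ → ℤ), 0 < p → (∀ r < p, g ∘ sb c p r = sb d p r) →
        g ∘ c = d := by
      intro p c d g hp hh
      funext z
      have hp' : (0 : ℤ) < p := by exact_mod_cast hp
      have z0 := Int.emod_nonneg z hp'.ne'
      have z1 := Int.emod_lt_of_pos z hp'
      have := congrFun (hh (z % p).toNat (by omega)) (z / p)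
      have e : (p : ℤ) * (z / p) + ((z % p).toNat : ℤ) = z := by
        rw [Int.toNat_of_nonneg z0]; exact Int.mul_ediv_add_emod z p
      simp only [Function.comp, sb] at this
      rw [e] at this
      exact this
    have hp0 : 0 < p := (hS p hp).pos
    · refine ⟨(range p).map (fun r => (sb a' p r, sb b p r)) + w₂, ?_, ?_, ?_, ?_⟩
      · rw [Multiset.map_add, Multiset.map_map]
        rfl
      · refine h2.trans ?_
        rw [Multiset.map_add, Multiset.map_map]
        exact Le.of_step (step_spl hp b _)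
      · intro g hg
        apply h3 g
        intro e he
        rcases Multiset.mem_cons.1 he with rfl | he
        · apply key p _ _ _ hp0
          intro r hr
          exact hg _ (Multiset.mem_add.2 (Or.inl (Multiset.mem_map.2
            ⟨r, Multiset.mem_range.2 hr, rfl⟩)))
        · exact hg e (Multiset.mem_add.2 (Or.inr he))
      · intro g hg
        apply h3' g
        intro e he
        rcases Multiset.mem_cons.1 he with rfl | he
        · apply key p _ _ _ hp0
          intro r hr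
          exact hg _ (Multiset.mem_add.2 (Or.inl (Multiset.mem_map.2
            ⟨r, Multiset.mem_range.2 hr, rfl⟩)))
        · exact hg e (Multiset.mem_add.2 (Or.inr he))

theorem pairs_range {h : ℕ → ℤ → ℤ} (M : ℕ) : ∀ w : Multiset ((ℤ → ℤ) × (ℤ → ℤ)),
    w.map Prod.fst = (range M).map h → ∃ b : ℕ → ℤ → ℤ, w = (range M).map (fun i => (h i, b i)) := by
  induction M with
  | zero =>
    intro w hw
    rw [Multiset.range_zero, Multiset.map_zero, Multiset.map_eq_zero] at hw
    exact ⟨fun _ => id, by rw [hw]; rfl⟩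
  | succ M ih =>
    intro w hw
    rw [Multiset.range_succ, Multiset.map_cons] at hw
    have ha : h M ∈ w.map Prod.fst := by rw [hw]; exact Multiset.mem_cons_self _ _
    obtain ⟨⟨a', b⟩, hab, hh⟩ := Multiset.mem_map.1 ha
    simp only at hh
    subst hh
    obtain ⟨w₂, rfl⟩ := Multiset.exists_cons_of_mem hab
    rw [Multiset.map_cons, Multiset.cons_inj_right] at hw
    obtain ⟨b', rfl⟩ := ih w₂ hw
    refine ⟨fun i => if i = M then b else b' i, ?_⟩
    rw [Multiset.range_succ, Multiset.map_cons]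
    simp only [if_true]
    congr 1
    apply Multiset.map_congr rfl
    intro i hi
    rw [Multiset.mem_range] at hi
    rw [if_neg hi.ne]

theorem nat_aff (hS : ∀ p ∈ S, Nat.Prime p) {ν : Multiset (ℤ → ℤ)} (h : Le S {id} ν) :
    ∀ b ∈ ν, ∃ m r : ℕ, Sm S m ∧ r < m ∧ b = sb id m r := by
  induction h with
  | refl =>
    intro b hb
    rw [Multiset.mem_singleton] at hb
    exact ⟨1, 0, Sm.one, one_pos, by rw [hb]; funext z; simp [sb]⟩
  | tail _ h ih =>
    obtain ⟨p, hp, c, t, rfl, rfl⟩ := h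
    have hpS : Sm S p := ⟨(hS p hp).ne_zero, fun p' hp' h => by
      rw [(Nat.prime_dvd_prime_iff_eq hp' (hS p hp)).1 h]; exact hp⟩
    intro b hb
    rcases Multiset.mem_add.1 hb with hb | hb
    · obtain ⟨s, hs, rfl⟩ := mem_spl.1 hb
      obtain ⟨m, r, hm, hr, rfl⟩ := ih c (Multiset.mem_cons_self _ _)
      refine ⟨m * p, m * s + r, hm.mul hpS, ?_, sb_sb _ _ _ _ _⟩
      calc m * s + r < m * s + m := by omega
        _ = m * (s + 1) := by ring
        _ ≤ m * p := Nat.mul_le_mul_left m hs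
    · exact ih b (Multiset.mem_cons_of_mem hb)

theorem nat_px (hS : ∀ p ∈ S, Nat.Prime p) {ν : Multiset (ℤ → ℤ)} (h : Le S {id} ν) :
    PX S ν :=
  aff_px hS ((Le.gd_iff hS h).1 gd_id) (fun n => by rw [Le.cnt_eq hS h gd_id, cnt_id])
    (nat_aff hS h)

theorem exists_zip {α : Type} {x y : Multiset α} (h : x.card = y.card) :
    ∃ w : Multiset (α × α), w.map Prod.fst = x ∧ w.map Prod.snd = y := by
  induction x using Quotient.inductionOn with
  | h l₁ =>
    induction y using Quotient.inductionOn with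
    | h l₂ =>
      have h' : l₁.length = l₂.length := h
      refine ⟨(l₁.zip l₂ : List (α × α)), ?_, ?_⟩
      · show ((l₁.zip l₂).map Prod.fst : Multiset α) = (l₁ : Multiset α)
        rw [List.map_fst_zip h'.le]
      · show ((l₁.zip l₂).map Prod.snd : Multiset α) = (l₂ : Multiset α)
        rw [List.map_snd_zip h'.ge]

open Pool.Agent.Helper111.CT in
/-- all bases of the same size are equivalent -/
theorem transit (hS : ∀ p ∈ S, Nat.Prime p) {x ν : Multiset (ℤ → ℤ)} (hx : PX S x)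
    (hν : Le S {id} ν) (hcard : x.card = ν.card) :
    ∃ g : Perm ℤ, Full (Mo S) g ∧ act g x = ν := by
  obtain ⟨w, hw1, hw2⟩ := exists_zip hcard
  obtain ⟨M, hM, hx⟩ := hx
  obtain ⟨w₁, a1, a2, a3, -⟩ := lift_pairs hS hx w hw1
  rw [hw2] at a2
  obtain ⟨L, hL, hLe⟩ := nat_px hS (hν.trans a2)
  obtain ⟨w₂, b1, b2, -, b3⟩ := lift_pairs hS hLe (w₁.map Prod.swap) (by
    rw [Multiset.map_map]; rfl)
  have e1 : (w₁.map Prod.swap).map Prod.snd = spl M id := by
    rw [Multiset.map_map, ← a1]; rfl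
  rw [e1] at b2
  obtain ⟨M₂, hM₂, hLe2⟩ := nat_px hS ((le_spl hM id).trans b2)
  obtain ⟨w₃, c1, c2, c3, -⟩ := lift_pairs hS hLe2 (w₂.map Prod.swap) (by
    rw [Multiset.map_map]; rfl)
  have e2 : (w₂.map Prod.swap).map Prod.snd = spl L id := by
    rw [Multiset.map_map, ← b1]; rfl
  rw [e2] at c2
  obtain ⟨b, hb⟩ := pairs_range M₂ w₃ c1
  have hnat : Le S {id} (w₃.map Prod.snd) := (le_spl hL id).trans c2
  have hsnd : w₃.map Prod.snd = (range M₂).map b := by
    rw [hb, Multiset.map_map]; rfl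
  rw [hsnd] at hnat
  have haff := nat_aff hS hnat
  have hgd := (nat_px hS hnat).gd hS
  have hcnt := px_cnt hS (nat_px hS hnat)
  have hM0 : 0 < M₂ := Nat.pos_of_ne_zero hM₂.1
  have hMz : (0 : ℤ) < M₂ := by exact_mod_cast hM0
  have hbm : ∀ i < M₂, b i ∈ (range M₂).map b := fun i hi =>
    Multiset.mem_map_of_mem b (Multiset.mem_range.2 hi)
  let g : ℤ → ℤ := fun n => b (n % M₂).toNat (n / M₂)
  have hr : ∀ n : ℤ, (n % M₂).toNat < M₂ := by
    intro n
    have := Int.emod_nonneg n hMz.ne'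
    have := Int.emod_lt_of_pos n hMz
    omega
  have hgb : ∀ i < M₂, ∀ k : ℤ, g (M₂ * k + i) = b i k := by
    intro i hi k
    have e1 : ((M₂ : ℤ) * k + i) % M₂ = i := by
      rw [add_comm, Int.add_mul_emod_self_left]
      exact Int.emod_eq_of_lt (by positivity) (by exact_mod_cast hi)
    have e2 : ((M₂ : ℤ) * k + i) / M₂ = k := by
      rw [add_comm, Int.add_mul_ediv_left _ _ hMz.ne',
        Int.ediv_eq_zero_of_lt (by positivity) (by exact_mod_cast hi), zero_add]
    show b (((M₂ : ℤ) * k + i) % M₂).toNat (((M₂ : ℤ) * k + i) / M₂) = b i k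
    rw [e1, e2]; simp
  have hinj : Function.Injective g := by
    intro n n' h
    have h0 := Int.emod_nonneg n hMz.ne'
    have h0' := Int.emod_nonneg n' hMz.ne'
    by_cases hij : (n % M₂).toNat = (n' % M₂).toNat
    · have h1 : b (n % M₂).toNat (n / M₂) = b (n' % M₂).toNat (n' / M₂) := h
      rw [hij] at h1
      have h2 := hgd.1 _ (hbm _ (hr n')) h1
      have h3 : n % M₂ = n' % M₂ := by omega
      rw [← Int.mul_ediv_add_emod n M₂, ← Int.mul_ediv_add_emod n' M₂, h2, h3]
    · exfalso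
      have h2 : ({(n % M₂).toNat, (n' % M₂).toNat} : Multiset ℕ) ≤ Multiset.range M₂ := by
        rw [Multiset.le_iff_subset (by simpa using hij)]
        intro r hr'
        simp only [Multiset.insert_eq_cons, Multiset.mem_cons, Multiset.mem_singleton] at hr'
        rw [Multiset.mem_range]
        rcases hr' with rfl | rfl
        · exact hr n
        · exact hr n'
      classical
      have h3 := cnt_le_of_le (n := g n) (Multiset.map_le_map (f := b) h2)
      have h4 : cnt (g n) (Multiset.map b {(n % M₂).toNat, (n' % M₂).toNat}) = 2 := by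
        rw [Multiset.insert_eq_cons, Multiset.map_cons, Multiset.map_singleton, cnt_cons,
          cnt_singleton, cnt_singleton, if_pos ⟨_, rfl⟩, if_pos ⟨_, h.symm⟩]
      have h5 := hcnt (g n)
      omega
  have hsurj : Function.Surjective g := by
    intro n
    have h1 : 0 < cnt n ((range M₂).map b) := by rw [hcnt]; exact one_pos
    obtain ⟨c, hc, k, hk⟩ := cnt_pos.1 h1
    obtain ⟨i, hi, rfl⟩ := Multiset.mem_map.1 hc
    rw [Multiset.mem_range] at hi
    exact ⟨M₂ * k + i, by rw [hgb i hi]; exact hk⟩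
  let G : Perm ℤ := Equiv.ofBijective g ⟨hinj, hsurj⟩
  refine ⟨G, ?_, ?_⟩
  · refine ⟨M₂, hMz, mo_of hM₂, fun i hi0 hi1 => ?_⟩
    obtain ⟨i, rfl⟩ := Int.eq_ofNat_of_zero_le hi0
    have hi : i < M₂ := by exact_mod_cast hi1
    obtain ⟨m, r, hm, hr, hbi⟩ := haff (b i) (hbm i hi)
    refine ⟨r, m, by positivity, by exact_mod_cast hr, mo_of hm, fun k => ?_⟩
    show g ((i : ℤ) + M₂ * k) = r + m * k
    rw [add_comm, hgb i hi, hbi]
    simp only [sb, id]
    ring
  · have h3 : ∀ e ∈ w₃, g ∘ e.1 = e.2 := by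
      intro e he
      rw [hb] at he
      obtain ⟨i, hi, rfl⟩ := Multiset.mem_map.1 he
      rw [Multiset.mem_range] at hi
      funext z
      exact hgb i hi z
    have h2 : ∀ e ∈ w₂, g ∘ e.2 = e.1 := by
      intro e he
      exact c3 g h3 e.swap (Multiset.mem_map_of_mem _ he)
    have h1 : ∀ e ∈ w₁, g ∘ e.1 = e.2 := by
      intro e he
      exact b3 g h2 e.swap (Multiset.mem_map_of_mem _ he)
    have h0 := a3 g h1
    unfold act
    rw [← hw1, ← hw2, Multiset.map_map]
    apply Multiset.map_congr rfl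
    intro e he
    exact h0 e he

end Pool.Agent.P8H56.CT
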