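import Mathlib

set_option autoImplicit false

/-!
# A criterion for finite presentability

A group acting on a connected and simply connected preordered set, with a finite upward closed set
of representatives having a least element and finitely many elements moving it over itself, is
finitely presented. Simple connectivity is stated with cocycles with values in arbitrary groups.
-/

namespace Pool.Agent.P8H56.CT

section Crit

variable {G : Type} [Group G] (E : Set G)

/-- the multiplication table of the finite set `E` -/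
def rels : Set (FreeGroup E) :=
  {r | ∃ g h k : E, (k : G) = g * h ∧ r = FreeGroup.of g * FreeGroup.of h * (FreeGroup.of k)⁻¹}

theorem finite_rels (hE : E.Finite) : (rels E).Finite := by
  have : Finite E := hE.to_subtype
  refine (Set.finite_range (fun t : E × E × E =>
    FreeGroup.of t.1 * FreeGroup.of t.2.1 * (FreeGroup.of t.2.2)⁻¹)).subset ?_
  rintro r ⟨g, h, k, -, rfl⟩
  exact ⟨(g, h, k), rfl⟩

open Classical in
/-- the generator of an element of `E` -/
noncomputable def io (g : G) : PresentedGroup (rels E) :=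
  if h : g ∈ E then PresentedGroup.of ⟨g, h⟩ else 1

theorem io_mul {g h : G} (hg : g ∈ E) (hh : h ∈ E) (hgh : g * h ∈ E) :
    io E g * io E h = io E (g * h) := by
  unfold io
  rw [dif_pos hg, dif_pos hh, dif_pos hgh]
  have h1 : (FreeGroup.of (⟨g, hg⟩ : E) * FreeGroup.of (⟨h, hh⟩ : E) *
      (FreeGroup.of (⟨g * h, hgh⟩ : E))⁻¹) ∈ rels E := ⟨_, _, _, rfl, rfl⟩
  have h2 : PresentedGroup.mk (rels E) (FreeGroup.of (⟨g, hg⟩ : E) * FreeGroup.of (⟨h, hh⟩ : E) *
      (FreeGroup.of (⟨g * h, hgh⟩ : E))⁻¹) = 1 :=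
    (QuotientGroup.eq_one_iff _).2 (Subgroup.subset_normalClosure h1)
  rw [map_mul, map_mul, map_inv, mul_inv_eq_one] at h2
  exact h2

theorem io_one (h1 : (1 : G) ∈ E) : io E 1 = 1 := by
  have := io_mul E h1 h1 (by rwa [mul_one])
  rw [mul_one] at this
  exact mul_eq_left.mp this

theorem io_inv (h1 : (1 : G) ∈ E) {g : G} (hg : g ∈ E) (hg' : g⁻¹ ∈ E) :
    io E g⁻¹ = (io E g)⁻¹ := by
  have := io_mul E hg' hg (by rwa [inv_mul_cancel])
  rw [inv_mul_cancel, io_one E h1] at this
  exact eq_inv_of_mul_eq_one_left this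

/-- the natural homomorphism -/
def pr : PresentedGroup (rels E) →* G :=
  PresentedGroup.toGroup (f := fun e : E => (e : G)) (by
    rintro r ⟨g, h, k, hk, rfl⟩
    simp [hk])

theorem pr_of (e : E) : pr E (PresentedGroup.of e) = e := by
  unfold pr
  rw [PresentedGroup.toGroup.of]

end Crit

/-- **Criterion for finite presentability.** -/
theorem fp_of_action {G X : Type} [Group G] [MulAction G X] (le : X → X → Prop)
    (hrefl : ∀ x, le x x)
    (hsm : ∀ (g : G) x y, le x y → le (g • x) (g • y))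
    (U : Set X) (o : X) (ho : o ∈ U) (hoU : ∀ u ∈ U, le o u)
    (hUup : ∀ u v, u ∈ U → le u v → v ∈ U)
    (hcov : ∀ x, ∃ g : G, g • x ∈ U)
    (hfin : {g : G | ∃ u ∈ U, g • u ∈ U}.Finite)
    (hconn : ∀ P : X → Prop, P o → (∀ x y, le x y → (P x ↔ P y)) → ∀ x, P x)
    (hsc : ∀ (Γ : Type) [Group Γ] (c : X → X → Γ),
      (∀ x y z, le x y → le y z → c x y * c y z = c x z) →
      ∃ f : X → Γ, ∀ x y, le x y → c x y = (f x)⁻¹ * f y) :
    Group.IsFinitelyPresented G := by
  classical
  set E : Set G := {g : G | ∃ u ∈ U, g • u ∈ U} with hE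
  have memE : ∀ {g : G} {u : X}, u ∈ U → g • u ∈ U → g ∈ E := fun hu hg => ⟨_, hu, hg⟩
  have h1E : (1 : G) ∈ E := memE ho (by rwa [one_smul])
  have hinvE : ∀ {g : G}, g ∈ E → g⁻¹ ∈ E := by
    rintro g ⟨u, hu, hg⟩
    exact memE hg (by rwa [inv_smul_smul])
  -- representatives
  choose s' hs' using hcov
  let s : X → G := fun x => (s' x)⁻¹
  have hs : ∀ x, (s x)⁻¹ • x ∈ U := fun x => by simpa [s] using hs' x
  have hsle : ∀ {x y : X}, le x y → (s x)⁻¹ • y ∈ U := fun {x y} h =>
    hUup _ _ (hs x) (hsm _ _ _ h)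
  have hsE : ∀ {x : X}, x ∈ U → s x ∈ E := fun {x} hx =>
    memE (hs x) (by rwa [smul_inv_smul])
  -- the cocycle
  have hc1 : ∀ {x y : X}, le x y → (s x)⁻¹ * s y ∈ E := fun {x y} h =>
    memE (hs y) (by rw [mul_smul, smul_inv_smul]; exact hsle h)
  obtain ⟨f, hf⟩ := hsc (PresentedGroup (rels E)) (fun x y => io E ((s x)⁻¹ * s y)) (by
      intro x y z hxy hyz
      have hxz : (s x)⁻¹ * s z ∈ E := memE (u := (s z)⁻¹ • z) (hs z) (by
        rw [mul_smul, smul_inv_smul]
        exact hUup _ _ (hsle hxy) (hsm _ _ _ hyz))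
      have e : (s x)⁻¹ * s y * ((s y)⁻¹ * s z) = (s x)⁻¹ * s z := by group
      show io E ((s x)⁻¹ * s y) * io E ((s y)⁻¹ * s z) = io E ((s x)⁻¹ * s z)
      rw [io_mul E (hc1 hxy) (hc1 hyz) (by rwa [e]), e])
  -- the local comparison elements
  let u : G → X → PresentedGroup (rels E) := fun γ x => io E ((s (γ • x))⁻¹ * γ * s x)
  have huE : ∀ (γ : G) {x y : X}, le x y → (s (γ • x))⁻¹ * γ * s y ∈ E := fun γ {x y} h =>
    memE (hs y) (by
      rw [mul_smul, mul_smul, smul_inv_smul]
      exact hsle (hsm γ _ _ h))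
  have hcomp : ∀ (γ : G) {x y : X}, le x y →
      f (γ • x) * u γ x * (f x)⁻¹ = f (γ • y) * u γ y * (f y)⁻¹ := by
    intro γ x y h
    have e1 : u γ x * io E ((s x)⁻¹ * s y) = io E ((s (γ • x))⁻¹ * γ * s y) := by
      have e : (s (γ • x))⁻¹ * γ * s x * ((s x)⁻¹ * s y) = (s (γ • x))⁻¹ * γ * s y := by group
      show io E _ * io E _ = _
      rw [io_mul E (huE γ (hrefl x)) (hc1 h) (by rw [e]; exact huE γ h), e]
    have e2 : io E ((s (γ • x))⁻¹ * s (γ • y)) * u γ y = io E ((s (γ • x))⁻¹ * γ * s y) := by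
      have e : (s (γ • x))⁻¹ * s (γ • y) * ((s (γ • y))⁻¹ * γ * s y) =
        (s (γ • x))⁻¹ * γ * s y := by group
      show io E _ * io E _ = _
      rw [io_mul E (hc1 (hsm γ _ _ h)) (huE γ (hrefl y)) (by rw [e]; exact huE γ h), e]
    have e3 := hf x y h
    have e4 := hf (γ • x) (γ • y) (hsm γ _ _ h)
    rw [e3] at e1
    rw [e4] at e2
    have e5 := e1.trans e2.symm
    calc f (γ • x) * u γ x * (f x)⁻¹ = f (γ • x) * (u γ x * ((f x)⁻¹ * f y)) * (f y)⁻¹ := by group
      _ = f (γ • x) * ((f (γ • x))⁻¹ * f (γ • y) * u γ y) * (f y)⁻¹ := by rw [e5]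
      _ = _ := by group
  have hconst : ∀ (γ : G) (x : X), f (γ • x) * u γ x * (f x)⁻¹ = f (γ • o) * u γ o * (f o)⁻¹ := by
    intro γ
    apply hconn
    · rfl
    · intro x y h
      rw [hcomp γ h]
  let ρ : G →* PresentedGroup (rels E) := MonoidHom.mk' (fun γ => f (γ • o) * u γ o * (f o)⁻¹) (by
    intro γ δ
    have e1 : u (γ * δ) o = u γ (δ • o) * u δ o := by
      have e : (s (γ • δ • o))⁻¹ * γ * s (δ • o) * ((s (δ • o))⁻¹ * δ * s o) =
        (s ((γ * δ) • o))⁻¹ * (γ * δ) * s o := by rw [mul_smul]; group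
      show _ = io E _ * io E _
      rw [io_mul E (huE γ (hrefl _)) (huE δ (hrefl _))
        (by rw [e]; exact huE _ (hrefl _)), e]
    have e2 := hconst γ (δ • o)
    show f ((γ * δ) • o) * u (γ * δ) o * (f o)⁻¹ = _
    rw [← e2, e1, mul_smul]
    group)
  -- comparison on the generators
  have hk : ∀ x ∈ U, io E (s x) * (f x)⁻¹ = io E (s o) * (f o)⁻¹ := by
    intro x hx
    have e1 := hf o x (hoU x hx)
    rw [← io_mul E (hinvE (hsE ho)) (hsE hx) (hc1 (hoU x hx)),
      io_inv E h1E (hsE ho) (hinvE (hsE ho))] at e1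
    have e2 : io E (s x) = io E (s o) * ((f o)⁻¹ * f x) := by rw [← e1]; group
    rw [e2]; group
  have hρ : ∀ e : E, ρ e = (io E (s o) * (f o)⁻¹)⁻¹ * PresentedGroup.of e *
      (io E (s o) * (f o)⁻¹) := by
    rintro ⟨e, x, hx, hex⟩
    have heE : e ∈ E := ⟨x, hx, hex⟩
    have h1 : ρ e = f (e • x) * u e x * (f x)⁻¹ := (hconst e x).symm
    have h2 : e * s x ∈ E := memE (hs x) (by rwa [mul_smul, smul_inv_smul])
    have h3 : (s (e • x))⁻¹ * (e * s x) ∈ E := by rw [← mul_assoc]; exact huE e (hrefl x)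
    have h4 : u e x = (io E (s (e • x)))⁻¹ * (io E e * io E (s x)) := by
      rw [io_mul E heE (hsE hx) h2, ← io_inv E h1E (hsE hex) (hinvE (hsE hex)),
        io_mul E (hinvE (hsE hex)) h2 h3, ← mul_assoc]
    have h5 : PresentedGroup.of (⟨e, heE⟩ : E) = io E e := by
      unfold io
      rw [dif_pos heE]
    show ρ e = _
    rw [h1, h4, h5, ← hk x hx]
    have h6 := (hk x hx).trans (hk _ hex).symm
    calc f (e • x) * ((io E (s (e • x)))⁻¹ * (io E e * io E (s x))) * (f x)⁻¹
        = (io E (s (e • x)) * (f (e • x))⁻¹)⁻¹ * io E e * (io E (s x) * (f x)⁻¹) := by group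
      _ = _ := by rw [← h6]
  have hinj : Function.Injective (pr E) := by
    rw [injective_iff_map_eq_one]
    intro a ha
    have key : ∀ a : PresentedGroup (rels E), ρ (pr E a) =
        (io E (s o) * (f o)⁻¹)⁻¹ * a * (io E (s o) * (f o)⁻¹) := by
      have hh : ρ.comp (pr E) = (MulAut.conj (io E (s o) * (f o)⁻¹)⁻¹).toMonoidHom := by
        apply PresentedGroup.ext
        intro e
        rw [MonoidHom.comp_apply, pr_of, hρ]
        simp [mul_assoc]
      intro a
      have := DFunLike.congr_fun hh a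
      rw [MonoidHom.comp_apply] at this
      rw [this]
      simp [mul_assoc]
    have h1 := key a
    rw [ha, map_one] at h1
    have h2 : a = (io E (s o) * (f o)⁻¹) * 1 * (io E (s o) * (f o)⁻¹)⁻¹ := by rw [h1]; group
    rw [h2]; group
  have hsurj : Function.Surjective (pr E) := by
    rw [← MonoidHom.range_eq_top, eq_top_iff]
    have hEr : ∀ e ∈ E, e ∈ (pr E).range := fun e he => ⟨PresentedGroup.of ⟨e, he⟩, pr_of E _⟩
    have hall : ∀ x, s x ∈ (pr E).range := by
      apply hconn
      · exact hEr _ (hsE ho)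
      · intro x y h
        have h1 := hEr _ (hc1 h)
        constructor
        · intro hx
          have := mul_mem hx h1
          rwa [mul_inv_cancel_left] at this
        · intro hy
          have := mul_mem hy (inv_mem h1)
          have e : s y * ((s x)⁻¹ * s y)⁻¹ = s x := by group
          rwa [e] at this
    intro γ _
    have h1 := hEr _ (huE γ (hrefl o))
    have h2 := mul_mem (mul_mem (hall (γ • o)) h1) (inv_mem (hall o))
    have e : s (γ • o) * ((s (γ • o))⁻¹ * γ * s o) * (s o)⁻¹ = γ := by group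
    rwa [e] at h2
  have : Finite E := hfin.to_subtype
  have : Finite (rels E) := (finite_rels E hfin).to_subtype
  exact Group.IsFinitelyPresented.equiv (MulEquiv.ofBijective (pr E) ⟨hinj, hsurj⟩)

end Pool.Agent.P8H56.CT
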