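import Pool.Agent.P8H56.CT.Join

set_option autoImplicit false

/-!
# Extending a cocycle over one multiset with many members
-/

namespace Pool.Agent.P8H56.CT

open Multiset Relation

/-- potentials for locally consistent labels on the edges of a graph in which any four vertices have
a common neighbour -/
theorem potential {V Γ : Type} [Group Γ] (perp : V → V → Prop)
    (hsym : ∀ a b, perp a b → perp b a) (e : V → V → Γ)
    (he : ∀ a b c, perp a b → perp b c → perp a c → e a b * e b c = e a c)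
    (hw : ∀ a b c d, ∃ w, perp w a ∧ perp w b ∧ perp w c ∧ perp w d) (z : V) :
    ∃ F : V → Γ, ∀ a b, perp a b → e a b * F b = F a := by
  choose w hw1 using fun a => hw a z z z
  have indep : ∀ a w w', perp w a → perp w z → perp w' a → perp w' z →
      e a w * e w z = e a w' * e w' z := by
    intro a w w' h1 h2 h3 h4
    obtain ⟨v, v1, v2, v3, v4⟩ := hw a z w w'
    rw [← he a v w (hsym _ _ v1) v3 (hsym _ _ h1), mul_assoc, he v w z v3 h2 v2,
      ← he a v w' (hsym _ _ v1) v4 (hsym _ _ h3), mul_assoc, he v w' z v4 h4 v2]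
  refine ⟨fun a => e a (w a) * e (w a) z, fun a b hab => ?_⟩
  obtain ⟨v, v1, v2, v3, _⟩ := hw a b z z
  show e a b * (e b (w b) * e (w b) z) = e a (w a) * e (w a) z
  rw [indep b (w b) v (hw1 b).1 (hw1 b).2.1 v2 v3, indep a (w a) v (hw1 a).1 (hw1 a).2.1 v1 v3,
    ← mul_assoc, he a b v hab (hsym _ _ v2) (hsym _ _ v1)]

variable {S : Finset ℕ}

/-- the splittings which are present in `x` -/
def Vx (S : Finset ℕ) (x : Multiset (ℤ → ℤ)) : Type :=
  {A : ℕ × (ℤ → ℤ) // A.1 ∈ S ∧ spl A.1 A.2 ≤ x}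

namespace Vx

variable {x : Multiset (ℤ → ℤ)}

/-- the members which are merged -/
def sp (A : Vx S x) : Multiset (ℤ → ℤ) := spl A.1.1 A.1.2

/-- the merged multiset -/
noncomputable def y (A : Vx S x) : Multiset (ℤ → ℤ) := by
  classical exact A.1.2 ::ₘ (x - A.sp)

theorem sp_le (A : Vx S x) : A.sp ≤ x := A.2.2

theorem y_eq {A : Vx S x} {t : Multiset (ℤ → ℤ)} (h : x = A.sp + t) : A.y = A.1.2 ::ₘ t := by
  classical
  unfold y
  congr 1
  have : x - A.sp = A.sp + t - A.sp := congrArg (· - A.sp) h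
  rw [this, add_tsub_cancel_left]

theorem exists_y (A : Vx S x) : ∃ t, x = A.sp + t ∧ A.y = A.1.2 ::ₘ t := by
  obtain ⟨t, ht⟩ := Multiset.le_iff_exists_add.1 A.sp_le
  exact ⟨t, ht, y_eq ht⟩

theorem step_y (A : Vx S x) : Step S A.y x := by
  obtain ⟨t, h1, h2⟩ := A.exists_y
  exact ⟨A.1.1, A.2.1, A.1.2, t, h2, h1⟩

/-- the multiset with two disjoint merges -/
noncomputable def m (A B : Vx S x) : Multiset (ℤ → ℤ) := by
  classical exact A.1.2 ::ₘ B.1.2 ::ₘ (x - (A.sp + B.sp))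

theorem m_eq {A B : Vx S x} {t : Multiset (ℤ → ℤ)} (h : x = A.sp + B.sp + t) :
    A.m B = A.1.2 ::ₘ B.1.2 ::ₘ t := by
  classical
  unfold m
  congr 2
  have : x - (A.sp + B.sp) = A.sp + B.sp + t - (A.sp + B.sp) := congrArg (· - (A.sp + B.sp)) h
  rw [this, add_tsub_cancel_left]

theorem exists_of_step {w : Multiset (ℤ → ℤ)} (h : Step S w x) : ∃ A : Vx S x, A.y = w := by
  obtain ⟨p, hp, a, t, rfl, rfl⟩ := h
  refine ⟨⟨(p, a), hp, Multiset.le_add_right _ _⟩, ?_⟩
  exact y_eq rfl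

end Vx

section ext

variable {Γ : Type} [Group Γ] {x : Multiset (ℤ → ℤ)}
  {c : Multiset (ℤ → ℤ) → Multiset (ℤ → ℤ) → Γ}

/-- the edge labels -/
noncomputable def el (c : Multiset (ℤ → ℤ) → Multiset (ℤ → ℤ) → Γ) (A B : Vx S x) : Γ :=
  (c (A.m B) A.y)⁻¹ * c (A.m B) B.y

theorem Le.ne_of_le_step (hS : ∀ p ∈ S, Nat.Prime p) {a b c : Multiset (ℤ → ℤ)}
    (h : Le S a b) (h' : Step S b c) : a ≠ c := by
  intro e
  subst e
  have h1 := Le.card_le hS h
  have h2 := h'.card_lt hS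
  omega

theorem m_le {A B : Vx S x} (hAB : A.sp + B.sp ≤ x) : Le S (A.m B) A.y ∧ Le S (A.m B) B.y := by
  obtain ⟨t, ht⟩ := Multiset.le_iff_exists_add.1 hAB
  have hm := Vx.m_eq ht
  have hA : A.y = A.1.2 ::ₘ (B.sp + t) := Vx.y_eq (by rw [← add_assoc]; exact ht)
  have hB : B.y = B.1.2 ::ₘ (A.sp + t) := Vx.y_eq (by
    rw [← add_assoc, add_comm B.sp]; exact ht)
  constructor
  · rw [hm, hA]
    exact le_cons (Le.of_step (step_spl B.2.1 _ _))
  · rw [hm, hB, Multiset.cons_swap]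
    exact le_cons (Le.of_step (step_spl A.2.1 _ _))

theorem el_eq (hS : ∀ p ∈ S, Nat.Prime p)
    (hc : ∀ a b d, Le S a b → Le S b d → Le S d x → d ≠ x → c a b * c b d = c a d)
    {A B : Vx S x} (hAB : A.sp + B.sp ≤ x) {z : Multiset (ℤ → ℤ)} (hz : Le S z (A.m B)) :
    el c A B = (c z A.y)⁻¹ * c z B.y := by
  obtain ⟨h1, h2⟩ := m_le hAB
  have e1 := hc z (A.m B) A.y hz h1 (Le.of_step A.step_y)
    (Le.ne_of_le_step hS (Le.refl _) A.step_y)
  have e2 := hc z (A.m B) B.y hz h2 (Le.of_step B.step_y)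
    (Le.ne_of_le_step hS (Le.refl _) B.step_y)
  unfold el
  rw [← e1, ← e2]
  group

theorem el_trans (hS : ∀ p ∈ S, Nat.Prime p) (hx : Gd x)
    (hc : ∀ a b d, Le S a b → Le S b d → Le S d x → d ≠ x → c a b * c b d = c a d)
    {A B C : Vx S x} (hAB : A.sp + B.sp ≤ x) (hBC : B.sp + C.sp ≤ x) (hAC : A.sp + C.sp ≤ x) :
    el c A B * el c B C = el c A C := by
  have hn := hx.nodup
  have n1 := Multiset.nodup_add.1 (Multiset.nodup_of_le hAB hn)
  have n2 := Multiset.nodup_add.1 (Multiset.nodup_of_le hBC hn)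
  have n3 := Multiset.nodup_add.1 (Multiset.nodup_of_le hAC hn)
  have hABC : A.sp + B.sp + C.sp ≤ x := by
    rw [Multiset.le_iff_subset]
    · intro b hb
      rcases Multiset.mem_add.1 hb with hb | hb
      · exact Multiset.mem_of_le hAB hb
      · exact Multiset.mem_of_le C.sp_le hb
    · rw [Multiset.nodup_add]
      refine ⟨Multiset.nodup_of_le hAB hn, n2.2.1, ?_⟩
      rw [Multiset.disjoint_add_left]
      exact ⟨n3.2.2, n2.2.2⟩
  obtain ⟨t, ht⟩ := Multiset.le_iff_exists_add.1 hABC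
  set z := A.1.2 ::ₘ B.1.2 ::ₘ C.1.2 ::ₘ t with hz
  have z1 : Le S z (A.m B) := by
    rw [Vx.m_eq (t := C.sp + t) (by rw [← add_assoc]; exact ht)]
    exact le_cons (le_cons (Le.of_step (step_spl C.2.1 _ _)))
  have z2 : Le S z (B.m C) := by
    rw [Vx.m_eq (t := A.sp + t) (ht.trans (by abel)), hz, Multiset.cons_swap]
    refine le_cons ?_
    rw [Multiset.cons_swap]
    exact le_cons (Le.of_step (step_spl A.2.1 _ _))
  have z3 : Le S z (A.m C) := by
    rw [Vx.m_eq (t := B.sp + t) (ht.trans (by abel)), hz]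
    refine le_cons ?_
    rw [Multiset.cons_swap]
    exact le_cons (Le.of_step (step_spl B.2.1 _ _))
  rw [el_eq hS hc hAB z1, el_eq hS hc hBC z2, el_eq hS hc hAC z3]
  group

variable (x) in
/-- the merge of two members as an element of `Vx` -/
def W (h2 : 2 ∈ S) (u v : ℤ → ℤ) (h : {u, v} ≤ x) : Vx S x :=
  ⟨(2, mrg u v), h2, by rw [spl_mrg]; exact h⟩

/-- two untouched members determine the value of the extension -/
theorem untouched (hS : ∀ p ∈ S, Nat.Prime p) (h2 : 2 ∈ S) (hx : Gd x)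
    (hc : ∀ a b d, Le S a b → Le S b d → Le S d x → d ≠ x → c a b * c b d = c a d)
    (F : Vx S x → Γ) (hF : ∀ A B : Vx S x, A.sp + B.sp ≤ x → el c A B * F B = F A)
    {u v : ℤ → ℤ} {s s' : Multiset (ℤ → ℤ)} (hxs : x = {u, v} + s')
    (A : Vx S x) (hA : Le S ({u, v} + s) A.y) :
    c (mrg u v ::ₘ s) ({u, v} + s) * (c ({u, v} + s) A.y * F A) =
      c (mrg u v ::ₘ s) (mrg u v ::ₘ s') *
        F (W x h2 u v (by rw [hxs]; exact Multiset.le_add_right _ _)) := by
  have hle : {u, v} ≤ x := by rw [hxs]; exact Multiset.le_add_right _ _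
  set w := W x h2 u v hle with hw
  have hwsp : w.sp = {u, v} := spl_mrg u v
  have hwy : w.y = mrg u v ::ₘ s' := Vx.y_eq (A := w) (by rw [hwsp]; exact hxs)
  obtain ⟨y₁, y₂, e1, g1, g2⟩ := le_add_inv hA
  have hyx : Le S (y₁ + y₂) x := by rw [← e1]; exact Le.of_step A.step_y
  obtain ⟨x₁, x₂, e2, g3, g4⟩ := le_add_inv hyx
  have gp : Gd ({u, v} : Multiset (ℤ → ℤ)) := hx.of_le hle
  have hcnt : ∀ n, cnt n ({u, v} : Multiset (ℤ → ℤ)) = cnt n x₁ := fun n =>
    (Le.cnt_eq hS (g1.trans g3) gp n).symm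
  obtain ⟨e3, e4⟩ := decomp_unique (hxs ▸ hx) (hxs ▸ e2) hcnt
  subst e3
  subst e4
  have e5 : {u, v} = y₁ := Le.eq_of_card hS g1 (Le.card_le hS g3)
  subst e5
  -- the merged member is untouched
  obtain ⟨t, ht, hAy⟩ := A.exists_y
  have hnot : A.1.2 ∉ x := by
    have hgt : Gd (spl A.1.1 A.1.2 + t) := by
      have : x = spl A.1.1 A.1.2 + t := ht
      rw [← this]; exact hx
    have := notMem_of_spl hS A.2.1 (a := A.1.2) (t := t) hgt
    intro h
    apply this
    have h' : x = spl A.1.1 A.1.2 + t := ht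
    rw [← h']; exact h
  have hmem : A.1.2 ∈ {u, v} + y₂ := by rw [← e1, hAy]; exact Multiset.mem_cons_self _ _
  have hmem2 : A.1.2 ∈ y₂ := by
    rcases Multiset.mem_add.1 hmem with h | h
    · exact absurd (Multiset.mem_of_le hle h) hnot
    · exact h
  obtain ⟨y₃, rfl⟩ := Multiset.exists_cons_of_mem hmem2
  have e6 : t = {u, v} + y₃ := by
    rw [hAy, Multiset.add_cons, Multiset.cons_inj_right] at e1
    exact e1
  have hx2 : x = A.sp + w.sp + y₃ := by rw [hwsp, add_assoc, ← e6]; exact ht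
  have hperp : A.sp + w.sp ≤ x := by
    have := Multiset.le_add_right (A.sp + w.sp) y₃
    rwa [← hx2] at this
  have hm : A.m w = A.1.2 ::ₘ mrg u v ::ₘ y₃ := Vx.m_eq hx2
  have hz : Le S (mrg u v ::ₘ s) (A.m w) := by
    rw [hm, Multiset.cons_swap]
    exact le_cons g2
  have hzy : Le S (mrg u v ::ₘ s) ({u, v} + s) := Le.of_step (step_mrg h2 u v s)
  have h1 := hF A w hperp
  rw [el_eq hS hc hperp hz] at h1
  have h3 := hc _ _ _ hzy hA (Le.of_step A.step_y) (Le.ne_of_le_step hS (Le.refl _) A.step_y)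
  rw [← mul_assoc, h3, ← hwy, ← h1]
  group

theorem star (hS : ∀ p ∈ S, Nat.Prime p) (h2 : 2 ∈ S) (hx : Gd x) {K : ℕ}
    (hK : ∀ p ∈ S, ∀ q ∈ S, p * q ≤ K ∧ p + q ≤ K) (hcard : K + 2 ≤ x.card)
    (hc : ∀ a b d, Le S a b → Le S b d → Le S d x → d ≠ x → c a b * c b d = c a d)
    (F : Vx S x → Γ) (hF : ∀ A B : Vx S x, A.sp + B.sp ≤ x → el c A B * F B = F A) :
    ∀ (k : ℕ) (y : Multiset (ℤ → ℤ)), x.card ≤ y.card + k → ∀ A B : Vx S x,
      Le S y A.y → Le S y B.y → c y A.y * F A = c y B.y * F B := by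
  -- the case of two untouched members
  have unt : ∀ (y s s' t : Multiset (ℤ → ℤ)), y = s + t → x = s' + t → Le S s s' → 2 ≤ t.card →
      ∀ A B : Vx S x, Le S y A.y → Le S y B.y → c y A.y * F A = c y B.y * F B := by
    intro y s s' t e1 e2 hs ht A B hA hB
    obtain ⟨u, v, t', rfl⟩ := exists_pair ht
    have e3 : y = {u, v} + (s + t') := by rw [e1, add_left_comm]
    have e4 : x = {u, v} + (s' + t') := by rw [e2, add_left_comm]
    rw [e3] at hA hB ⊢
    have h1 := untouched hS h2 hx hc F hF e4 A hA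
    have h2' := untouched hS h2 hx hc F hF e4 B hB
    exact mul_left_cancel (h1.trans h2'.symm)
  have single : ∀ (y : Multiset (ℤ → ℤ)), Step S y x →
      ∀ A B : Vx S x, Le S y A.y → Le S y B.y → c y A.y * F A = c y B.y * F B := by
    rintro y ⟨p, hp, a, t, e1, e2⟩ A B hA hB
    have hpS : Sm S p := ⟨(hS p hp).ne_zero, fun p' hp' h => by
      rw [(Nat.prime_dvd_prime_iff_eq hp' (hS p hp)).1 h]; exact hp⟩
    refine unt y {a} (spl p a) t ?_ e2 (le_spl hpS a) ?_ A B hA hB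
    · rw [e1, Multiset.singleton_add]
    · rw [e2, Multiset.card_add, card_spl] at hcard
      have := (hK p hp p hp).2
      omega
  intro k
  induction k with
  | zero =>
    intro y hy A B hA hB
    have h1 := Le.card_le hS hA
    have h2 := A.step_y.card_lt hS
    omega
  | succ k ih =>
    intro y hy A B hA hB
    by_cases hyA : y = A.y
    · exact single y (hyA ▸ A.step_y) A B hA hB
    by_cases hyB : y = B.y
    · exact single y (hyB ▸ B.step_y) A B hA hB
    obtain ⟨u, hu, huA⟩ := hA.exists_head hyA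
    obtain ⟨v, hv, hvB⟩ := hB.exists_head hyB
    have hyg : Gd y := (Le.gd_iff hS (hA.trans (Le.of_step A.step_y))).2 hx
    obtain ⟨w, s, s', t, h1, h3, h4, h5, h6, h7, h8⟩ := join hS hK hyg hu hv
      (huA.trans (Le.of_step A.step_y)) (hvB.trans (Le.of_step B.step_y))
    by_cases hwx : w = x
    · subst hwx
      refine unt y s s' t h5 h6 h7 ?_ A B hA hB
      rw [h6, Multiset.card_add] at hcard
      omega
    · obtain ⟨w', hw1, hw2⟩ := h4.exists_tail hwx
      obtain ⟨D, rfl⟩ := Vx.exists_of_step hw2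
      have huc := hu.card_lt hS
      have hvc := hv.card_lt hS
      have nA := Le.ne_of_le_step hS (Le.refl _) A.step_y
      have nB := Le.ne_of_le_step hS (Le.refl _) B.step_y
      have nD := Le.ne_of_le_step hS (Le.refl _) D.step_y
      have i1 := ih u (by omega) A D huA (h1.trans hw1)
      have i2 := ih v (by omega) B D hvB (h3.trans hw1)
      have c1 := hc y u A.y (Le.of_step hu) huA (Le.of_step A.step_y) nA
      have c2 := hc y u D.y (Le.of_step hu) (h1.trans hw1) (Le.of_step D.step_y) nD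
      have c3 := hc y v B.y (Le.of_step hv) hvB (Le.of_step B.step_y) nB
      have c4 := hc y v D.y (Le.of_step hv) (h3.trans hw1) (Le.of_step D.step_y) nD
      rw [← c1, mul_assoc, i1, ← mul_assoc, c2, ← c3, mul_assoc, i2, ← mul_assoc, c4]

/-- any four splittings present in `x` have a common disjoint one -/
theorem common (h2 : 2 ∈ S) {K : ℕ}
    (hK : ∀ p ∈ S, ∀ q ∈ S, p * q ≤ K ∧ p + q ≤ K) (hcard : 4 * K + 2 ≤ x.card) :
    ∀ A B C D : Vx S x, ∃ W : Vx S x, W.sp + A.sp ≤ x ∧ W.sp + B.sp ≤ x ∧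
      W.sp + C.sp ≤ x ∧ W.sp + D.sp ≤ x := by
  classical
  have hKsp : ∀ A : Vx S x, A.sp.card ≤ K := by
    intro A
    have h1 : A.sp.card = A.1.1 := card_spl _ _
    have := (hK _ A.2.1 _ A.2.1).2
    omega
  intro A B C D
  have h1 : x.card ≤ (x - (A.sp + B.sp + C.sp + D.sp)).card +
      (A.sp + B.sp + C.sp + D.sp).card := by
    rw [← Multiset.card_add]
    exact Multiset.card_le_card le_tsub_add
  rw [Multiset.card_add, Multiset.card_add, Multiset.card_add] at h1
  have a1 := hKsp A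
  have a2 := hKsp B
  have a3 := hKsp C
  have a4 := hKsp D
  obtain ⟨u, v, t, ht⟩ := exists_pair (t := x - (A.sp + B.sp + C.sp + D.sp)) (by omega)
  have h3 : ({u, v} : Multiset (ℤ → ℤ)) ≤ x - (A.sp + B.sp + C.sp + D.sp) := by
    rw [ht]; exact Multiset.le_add_right _ _
  have h4 : ({u, v} : Multiset (ℤ → ℤ)) ≤ x := h3.trans tsub_le_self
  have key : ∀ E : Vx S x, E.sp ≤ A.sp + B.sp + C.sp + D.sp → {u, v} + E.sp ≤ x := by
    intro E hE
    rw [← le_tsub_iff_right E.sp_le]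
    exact h3.trans (tsub_le_tsub_left hE x)
  refine ⟨W x h2 u v h4, ?_⟩
  have hsp : (W x h2 u v h4).sp = {u, v} := spl_mrg u v
  rw [hsp]
  refine ⟨key A ?_, key B ?_, key C ?_, key D ?_⟩
  · rw [add_assoc, add_assoc]; exact Multiset.le_add_right _ _
  · rw [add_comm A.sp, add_assoc, add_assoc]; exact Multiset.le_add_right _ _
  · rw [add_comm _ C.sp, add_assoc]; exact Multiset.le_add_right _ _
  · exact Multiset.le_add_left _ _

/-- extension of a cocycle over `x` -/
theorem ext_at (hS : ∀ p ∈ S, Nat.Prime p) (h2 : 2 ∈ S) (hx : Gd x) {K : ℕ}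
    (hK : ∀ p ∈ S, ∀ q ∈ S, p * q ≤ K ∧ p + q ≤ K) (hcard : 4 * K + 2 ≤ x.card)
    (hc : ∀ a b d, Le S a b → Le S b d → Le S d x → d ≠ x → c a b * c b d = c a d) :
    ∃ g : Multiset (ℤ → ℤ) → Γ, ∀ y y', Le S y y' → Le S y' x → y' ≠ x →
      c y y' * g y' = g y := by
  classical
  have hw := common (x := x) h2 hK hcard
  obtain ⟨u, v, t, ht⟩ := exists_pair (t := x) (by omega)
  obtain ⟨F, hF⟩ := potential (fun A B : Vx S x => A.sp + B.sp ≤ x)
    (fun A B h => by rwa [add_comm]) (el c) (fun A B C h1 h3 h4 => el_trans hS hx hc h1 h3 h4) hw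
    (W x h2 u v (by rw [ht]; exact Multiset.le_add_right _ _))
  have hstar := fun y A B => star hS h2 hx hK (by omega) hc F hF x.card y (by omega) A B
  refine ⟨fun y => if h : ∃ A : Vx S x, Le S y A.y then c y h.choose.y * F h.choose else 1, ?_⟩
  intro y y' hy hy' hne
  obtain ⟨w', hw1, hw2⟩ := hy'.exists_tail hne
  obtain ⟨D, rfl⟩ := Vx.exists_of_step hw2
  have h' : ∃ A : Vx S x, Le S y' A.y := ⟨D, hw1⟩
  have h : ∃ A : Vx S x, Le S y A.y := ⟨D, hy.trans hw1⟩
  simp only [dif_pos h, dif_pos h']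
  rw [← mul_assoc, hc y y' _ hy h'.choose_spec (Le.of_step h'.choose.step_y)
    (Le.ne_of_le_step hS (Le.refl _) h'.choose.step_y)]
  exact hstar y _ _ (hy.trans h'.choose_spec) h.choose_spec

end ext

end Pool.Agent.P8H56.CT
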