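import Pool.Agent.P8H56.CT.Spl

set_option autoImplicit false

/-!
# Counting members whose range contains an integer
-/

namespace Pool.Agent.P8H56.CT

open Multiset Relation

open Classical in
/-- the number of members of `x` whose range contains `n` -/
noncomputable def cnt (n : ℤ) (x : Multiset (ℤ → ℤ)) : ℕ := x.countP (fun a => n ∈ Set.range a)

theorem cnt_add (n : ℤ) (x y : Multiset (ℤ → ℤ)) : cnt n (x + y) = cnt n x + cnt n y := by
  classical
  unfold cnt
  rw [Multiset.countP_add]

theorem cnt_zero (n : ℤ) : cnt n 0 = 0 := by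
  classical
  unfold cnt
  rw [Multiset.countP_zero]

theorem cnt_singleton (n : ℤ) (a : ℤ → ℤ) [Decidable (n ∈ Set.range a)] :
    cnt n {a} = if n ∈ Set.range a then 1 else 0 := by
  classical
  unfold cnt
  rw [← Multiset.cons_zero, Multiset.countP_cons, Multiset.countP_zero, zero_add]
  split_ifs <;> rfl

theorem mem_msum {b : ℤ → ℤ} {x : Multiset (Multiset (ℤ → ℤ))} :
    b ∈ x.sum ↔ ∃ y ∈ x, b ∈ y := Multiset.mem_join

theorem cnt_cons (n : ℤ) (a : ℤ → ℤ) (x : Multiset (ℤ → ℤ)) :
    cnt n (a ::ₘ x) = cnt n {a} + cnt n x := by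
  rw [← Multiset.singleton_add, cnt_add]

theorem cnt_pos {n : ℤ} {x : Multiset (ℤ → ℤ)} : 0 < cnt n x ↔ ∃ a ∈ x, n ∈ Set.range a := by
  classical
  unfold cnt
  rw [Multiset.countP_pos]

theorem cnt_pos_of_mem {x : Multiset (ℤ → ℤ)} {a : ℤ → ℤ} (ha : a ∈ x) (k : ℤ) :
    0 < cnt (a k) x := cnt_pos.2 ⟨a, ha, k, rfl⟩

theorem cnt_le_of_le {n : ℤ} {x y : Multiset (ℤ → ℤ)} (h : x ≤ y) : cnt n x ≤ cnt n y := by
  obtain ⟨z, rfl⟩ := Multiset.le_iff_exists_add.1 h
  rw [cnt_add]; omega

/-- injective members with pairwise disjoint ranges -/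
def Gd (x : Multiset (ℤ → ℤ)) : Prop := (∀ a ∈ x, Function.Injective a) ∧ ∀ n, cnt n x ≤ 1

theorem Gd.of_le {x y : Multiset (ℤ → ℤ)} (h : Gd y) (hxy : x ≤ y) : Gd x :=
  ⟨fun a ha => h.1 a (Multiset.mem_of_le hxy ha), fun n => (cnt_le_of_le hxy).trans (h.2 n)⟩

theorem Gd.left {x y : Multiset (ℤ → ℤ)} (h : Gd (x + y)) : Gd x :=
  h.of_le (Multiset.le_add_right _ _)

theorem Gd.right {x y : Multiset (ℤ → ℤ)} (h : Gd (x + y)) : Gd y :=
  h.of_le (Multiset.le_add_left _ _)

theorem Gd.inj {x : Multiset (ℤ → ℤ)} {a : ℤ → ℤ} (h : Gd (a ::ₘ x)) : Function.Injective a :=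
  h.1 a (Multiset.mem_cons_self _ _)

theorem sb_inj {a : ℤ → ℤ} (ha : Function.Injective a) {p r : ℕ} (hp : 0 < p) :
    Function.Injective (sb a p r) := by
  intro x y h
  have := ha h
  have hp' : (p : ℤ) ≠ 0 := by exact_mod_cast hp.ne'
  have h2 : (p : ℤ) * x = p * y := by linarith
  exact mul_left_cancel₀ hp' h2

theorem Gd.nodup {x : Multiset (ℤ → ℤ)} (h : Gd x) : x.Nodup := by
  classical
  rw [Multiset.nodup_iff_le]
  intro a ha
  have h1 := (cnt_le_of_le (n := a 0) ha).trans (h.2 (a 0))
  have h2 : cnt (a 0) {a} = 1 := by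
    rw [cnt_singleton, if_pos (Set.mem_range_self (0 : ℤ))]
  have h3 : cnt (a 0) (a ::ₘ {a}) = 2 := by rw [cnt_cons, h2]
  have h4 : cnt (a 0) (a ::ₘ {a}) ≤ 1 := h1
  omega

theorem mem_range_sb {a : ℤ → ℤ} (ha : Function.Injective a) {p r : ℕ} (hr : r < p) (k : ℤ) :
    a k ∈ Set.range (sb a p r) ↔ r = (k % p).toNat := by
  have hp : (0 : ℤ) < p := by exact_mod_cast (lt_of_le_of_lt (Nat.zero_le r) hr)
  have h0 := Int.emod_nonneg k hp.ne'
  have h1 := Int.emod_lt_of_pos k hp
  constructor
  · rintro ⟨z, hz⟩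
    have h2 : (p : ℤ) * z + r = k := ha hz
    have h3 : k % p = r := by
      rw [← h2, add_comm, Int.add_mul_emod_self_left]
      exact Int.emod_eq_of_lt (by positivity) (by exact_mod_cast hr)
    rw [h3]; simp
  · intro h
    refine ⟨k / p, ?_⟩
    show a (p * (k / p) + r) = a k
    congr 1
    have h2 : (r : ℤ) = k % p := by rw [h]; exact Int.toNat_of_nonneg h0
    rw [h2]; exact Int.mul_ediv_add_emod k p

theorem cnt_spl {a : ℤ → ℤ} (ha : Function.Injective a) {p : ℕ} (hp : 0 < p) (n : ℤ) :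
    cnt n (spl p a) = cnt n {a} := by
  classical
  by_cases hn : n ∈ Set.range a
  · obtain ⟨k, rfl⟩ := hn
    rw [cnt_singleton, if_pos ⟨k, rfl⟩]
    unfold cnt spl
    rw [Multiset.countP_map]
    have hp' : (0 : ℤ) < p := by exact_mod_cast hp
    have h0 := Int.emod_nonneg k hp'.ne'
    have h1 := Int.emod_lt_of_pos k hp'
    have h2 : (Multiset.range p).filter (fun r => a k ∈ Set.range (sb a p r)) =
        (Multiset.range p).filter (fun r => (k % p).toNat = r) := by
      apply Multiset.filter_congr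
      intro r hr
      rw [Multiset.mem_range] at hr
      rw [mem_range_sb ha hr]
      exact eq_comm
    rw [h2, ← Multiset.countP_eq_card_filter]
    have h3 : (Multiset.range p).countP (fun r => (k % p).toNat = r) =
        (Multiset.range p).count (k % p).toNat := rfl
    rw [h3]
    apply Multiset.count_eq_one_of_mem (Multiset.nodup_range p)
    rw [Multiset.mem_range]
    omega
  · rw [cnt_singleton, if_neg hn]
    by_contra h
    obtain ⟨b, hb, k, hk⟩ := cnt_pos.1 (Nat.pos_of_ne_zero h)
    obtain ⟨r, _, rfl⟩ := mem_spl.1 hb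
    exact hn ⟨_, hk⟩

theorem inj_of_spl {a : ℤ → ℤ} {p : ℕ} (hp : 0 < p) (h : Gd (spl p a)) :
    Function.Injective a := by
  classical
  intro k l hkl
  have hp' : (0 : ℤ) < p := by exact_mod_cast hp
  have k0 := Int.emod_nonneg k hp'.ne'
  have k1 := Int.emod_lt_of_pos k hp'
  have l0 := Int.emod_nonneg l hp'.ne'
  have l1 := Int.emod_lt_of_pos l hp'
  have ek : sb a p (k % p).toNat (k / p) = a k := by
    show a _ = _
    congr 1
    rw [Int.toNat_of_nonneg k0]; exact Int.mul_ediv_add_emod k p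
  have el : sb a p (l % p).toNat (l / p) = a l := by
    show a _ = _
    congr 1
    rw [Int.toNat_of_nonneg l0]; exact Int.mul_ediv_add_emod l p
  by_cases hr : (k % p).toNat = (l % p).toNat
  · rw [hr, hkl, ← el] at ek
    have h1 := h.1 _ (mem_spl.2 ⟨(l % p).toNat, by omega, rfl⟩) ek
    have h2 : k % p = l % p := by omega
    rw [← Int.mul_ediv_add_emod k p, ← Int.mul_ediv_add_emod l p, h1, h2]
  · exfalso
    have h2 : ({(k % p).toNat, (l % p).toNat} : Multiset ℕ) ≤ Multiset.range p := by
      rw [Multiset.le_iff_subset (by simpa using hr)]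
      intro r hr
      simp only [Multiset.insert_eq_cons, Multiset.mem_cons, Multiset.mem_singleton] at hr
      rw [Multiset.mem_range]
      omega
    have h3 := cnt_le_of_le (n := a k) (Multiset.map_le_map (f := sb a p) h2)
    have h4 : cnt (a k) (Multiset.map (sb a p) {(k % p).toNat, (l % p).toNat}) = 2 := by
      rw [Multiset.insert_eq_cons, Multiset.map_cons, Multiset.map_singleton, cnt_cons,
        cnt_singleton, cnt_singleton, if_pos ⟨_, ek⟩, if_pos ⟨_, el.trans hkl.symm⟩]
    have h5 := h.2 (a k)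
    unfold spl at h5
    omega

theorem gd_cons_iff {a : ℤ → ℤ} {t : Multiset (ℤ → ℤ)} {p : ℕ} (hp : 0 < p) :
    Gd (a ::ₘ t) ↔ Gd (spl p a + t) := by
  constructor
  · intro h
    refine ⟨fun b hb => ?_, fun n => ?_⟩
    · rcases Multiset.mem_add.1 hb with hb | hb
      · obtain ⟨r, _, rfl⟩ := mem_spl.1 hb
        exact sb_inj h.inj hp
      · exact h.1 b (Multiset.mem_cons_of_mem hb)
    · rw [cnt_add, cnt_spl h.inj hp, ← cnt_cons]
      exact h.2 n
  · intro h
    have ha : Function.Injective a := inj_of_spl hp h.left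
    refine ⟨fun b hb => ?_, fun n => ?_⟩
    · rcases Multiset.mem_cons.1 hb with rfl | hb
      · exact ha
      · exact h.1 b (Multiset.mem_add.2 (Or.inr hb))
    · rw [cnt_cons, ← cnt_spl ha hp, ← cnt_add]
      exact h.2 n

/-- a decomposition of a good multiset is determined by the ranges -/
theorem decomp_unique {x₁ x₂ x₁' x₂' : Multiset (ℤ → ℤ)} (h : Gd (x₁ + x₂))
    (he : x₁ + x₂ = x₁' + x₂') (hc : ∀ n, cnt n x₁ = cnt n x₁') : x₁ = x₁' ∧ x₂ = x₂' := by
  classical
  have h' : Gd (x₁' + x₂') := he ▸ h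
  have key : ∀ {y₁ y₂ y₁' y₂' : Multiset (ℤ → ℤ)}, Gd (y₁ + y₂) → y₁ + y₂ = y₁' + y₂' →
      (∀ n, cnt n y₁ = cnt n y₁') → ∀ b ∈ y₁, b ∈ y₁' := by
    intro y₁ y₂ y₁' y₂' hg he hc b hb
    by_contra hn
    have hb2 : b ∈ y₂' := by
      have : b ∈ y₁' + y₂' := he ▸ Multiset.mem_add.2 (Or.inl hb)
      exact (Multiset.mem_add.1 this).resolve_left hn
    have h1 := cnt_pos_of_mem hb 0
    have h2 := cnt_pos_of_mem hb2 0
    have h3 := hg.2 (b 0)
    rw [he, cnt_add, ← hc] at h3
    omega
  have e : x₁ = x₁' := by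
    rw [Multiset.Nodup.ext h.left.nodup h'.left.nodup]
    intro b
    exact ⟨key h he hc b, key h' he.symm (fun n => (hc n).symm) b⟩
  refine ⟨e, ?_⟩
  rw [e] at he
  exact add_left_cancel he

variable {S : Finset ℕ}

section

variable (hS : ∀ p ∈ S, Nat.Prime p)

include hS

theorem Step.gd_iff {y x : Multiset (ℤ → ℤ)} (h : Step S y x) : Gd y ↔ Gd x := by
  obtain ⟨p, hp, a, t, rfl, rfl⟩ := h
  exact gd_cons_iff (hS p hp).pos

theorem Le.gd_iff {y x : Multiset (ℤ → ℤ)} (h : Le S y x) : Gd y ↔ Gd x := by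
  induction h with
  | refl => exact Iff.rfl
  | tail _ h ih => exact ih.trans (h.gd_iff hS)

theorem Le.cnt_eq {y x : Multiset (ℤ → ℤ)} (h : Le S y x) (hy : Gd y) (n : ℤ) :
    cnt n x = cnt n y := by
  induction h with
  | refl => rfl
  | tail h' h ih =>
    rw [← ih]
    have h1 := (Le.gd_iff hS h').1 hy
    obtain ⟨p, hp, a, t, rfl, rfl⟩ := h
    rw [cnt_add, cnt_spl h1.inj (hS p hp).pos, ← cnt_cons]

theorem split_mul_aux {q : ℕ} (hq : q ∈ S) : ∀ (k : ℕ) (a : ℤ → ℤ) (x : Multiset (ℤ → ℤ)),
    x.card ≤ k → Function.Injective a → Le S {a} x →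
    (∀ b ∈ x, ∃ m r : ℕ, q ∣ m ∧ b = sb a m r) → Le S (spl q a) x := by
  intro k
  induction k with
  | zero =>
    intro a x hx _ h _
    have := Le.card_le hS h
    rw [Multiset.card_singleton] at this
    omega
  | succ k ih =>
    intro a x hx ha h hb
    by_cases he : {a} = x
    · exfalso
      obtain ⟨m, r, hm, e⟩ := hb a (by rw [← he]; exact Multiset.mem_singleton_self a)
      have h0 := ha (congrFun e 0 : a 0 = a _)
      have h1 := ha (congrFun e 1 : a 1 = a _)
      have h2 : (m : ℤ) = 1 := by linarith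
      have h3 : m = 1 := by exact_mod_cast h2
      rw [h3, Nat.dvd_one] at hm
      exact (hS q hq).ne_one hm
    · obtain ⟨u, ⟨p, hp, c, t, e1, rfl⟩, h2⟩ := h.exists_head he
      have e3 : a = c ∧ t = 0 := by
        rw [← Multiset.cons_zero, Multiset.cons_eq_cons] at e1
        rcases e1 with ⟨h1, h2⟩ | ⟨_, cs, h1, _⟩
        · exact ⟨h1, h2.symm⟩
        · exact absurd h1.symm (Multiset.cons_ne_zero)
      obtain ⟨rfl, rfl⟩ := e3
      rw [add_zero] at h2
      by_cases hpq : p = q
      · rw [← hpq]; exact h2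
      · have hpp := hS p hp
        have hqq := hS q hq
        obtain ⟨g, rfl, hg⟩ := le_map_range_inv p h2
        have hcard : ∀ r < p, (g r).card ≤ k := by
          intro r hr
          -- another member has positive cardinality
          have h3 : ∀ s < p, 0 < (g s).card := by
            intro s hs
            have := Le.card_le hS (hg s hs)
            rw [Multiset.card_singleton] at this
            omega
          obtain ⟨s, hs, hsr⟩ : ∃ s < p, s ≠ r := by
            by_cases h0 : r = 0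
            · exact ⟨1, hpp.one_lt, by omega⟩
            · exact ⟨0, hpp.pos, fun h => h0 h.symm⟩
          have h4 : ({s, r} : Multiset ℕ) ≤ Multiset.range p := by
            rw [Multiset.le_iff_subset (by simpa using hsr)]
            intro j hj
            simp only [Multiset.insert_eq_cons, Multiset.mem_cons, Multiset.mem_singleton] at hj
            rw [Multiset.mem_range]
            omega
          obtain ⟨w, hw⟩ := Multiset.le_iff_exists_add.1 h4
          rw [hw] at hx
          simp only [Multiset.insert_eq_cons, Multiset.cons_add, Multiset.map_cons,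
            Multiset.singleton_add, Multiset.sum_cons, Multiset.card_add] at hx
          have := h3 s hs
          omega
        have hsub : ∀ r < p, ∀ b ∈ g r, b ∈ ((Multiset.range p).map g).sum := by
          intro r hr b hb
          rw [mem_msum]
          exact ⟨g r, Multiset.mem_map_of_mem g (Multiset.mem_range.2 hr), hb⟩
        have key : Le S (((Multiset.range p).map (fun r => spl q (sb a p r))).sum)
            (((Multiset.range p).map g).sum) := by
          apply le_sum_map
          intro r hr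
          rw [Multiset.mem_range] at hr
          apply ih _ _ (hcard r hr) (sb_inj ha hpp.pos) (hg r hr)
          intro b hbr
          obtain ⟨m, s, hm, e⟩ := hb b (hsub r hr b hbr)
          obtain ⟨m', s', e'⟩ := mem_of_le (hg r hr) b hbr
          refine ⟨m', s', ?_, e'⟩
          rw [e', sb_sb] at e
          have h0 := ha (congrFun e 0 : a _ = a _)
          have h1 := ha (congrFun e 1 : a _ = a _)
          have h2 : ((p * m' : ℕ) : ℤ) = (m : ℤ) := by linarith
          have h3 : p * m' = m := by exact_mod_cast h2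
          rw [← h3] at hm
          exact (Nat.Coprime.dvd_mul_left ((Nat.coprime_primes hqq hpp).2 (Ne.symm hpq))).1 hm
        have e4 : ((Multiset.range p).map (fun r => spl q (sb a p r))).sum = spl (q * p) a := by
          rw [mul_comm, spl_mul]
          unfold spl
          rw [Multiset.bind_map]
          rfl
        rw [e4] at key
        refine (spl_le_spl_mul ⟨hpp.ne_zero, fun p' hp' h => ?_⟩ a).trans key
        rw [(Nat.prime_dvd_prime_iff_eq hp' hpp).1 h]
        exact hp

/-- joins of two splittings of the same member -/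
theorem split_mul {p q : ℕ} (hp : p ∈ S) (hq : q ∈ S) (hpq : p ≠ q) {a : ℤ → ℤ}
    {x : Multiset (ℤ → ℤ)} (ha : Function.Injective a) (h1 : Le S (spl p a) x)
    (h2 : Le S (spl q a) x) : Le S (spl (p * q) a) x := by
  have hpp := hS p hp
  have hqq := hS q hq
  have hdiv : ∀ b ∈ x, ∃ m r : ℕ, q ∣ m ∧ b = sb a m r := by
    obtain ⟨g, rfl, hg⟩ := le_map_range_inv q h2
    intro b hb
    rw [mem_msum] at hb
    obtain ⟨_, hb1, hb2⟩ := hb
    obtain ⟨r, hr, rfl⟩ := Multiset.mem_map.1 hb1
    rw [Multiset.mem_range] at hr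
    obtain ⟨m, s, rfl⟩ := mem_of_le (hg r hr) b hb2
    exact ⟨q * m, q * s + r, Dvd.intro _ rfl, sb_sb _ _ _ _ _⟩
  obtain ⟨g, rfl, hg⟩ := le_map_range_inv p h1
  have hsub : ∀ r < p, ∀ b ∈ g r, b ∈ ((Multiset.range p).map g).sum := by
    intro r hr b hb
    rw [mem_msum]
    exact ⟨g r, Multiset.mem_map_of_mem g (Multiset.mem_range.2 hr), hb⟩
  have key : Le S (((Multiset.range p).map (fun r => spl q (sb a p r))).sum)
      (((Multiset.range p).map g).sum) := by
    apply le_sum_map
    intro r hr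
    rw [Multiset.mem_range] at hr
    apply split_mul_aux hS hq _ _ _ le_rfl (sb_inj ha hpp.pos) (hg r hr)
    intro b hbr
    obtain ⟨m, s, hm, e⟩ := hdiv b (hsub r hr b hbr)
    obtain ⟨m', s', e'⟩ := mem_of_le (hg r hr) b hbr
    refine ⟨m', s', ?_, e'⟩
    rw [e', sb_sb] at e
    have h0 := ha (congrFun e 0 : a _ = a _)
    have h1 := ha (congrFun e 1 : a _ = a _)
    have h2 : ((p * m' : ℕ) : ℤ) = (m : ℤ) := by linarith
    have h3 : p * m' = m := by exact_mod_cast h2
    rw [← h3] at hm
    exact (Nat.Coprime.dvd_mul_left ((Nat.coprime_primes hqq hpp).2 (Ne.symm hpq))).1 hm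
  have e4 : ((Multiset.range p).map (fun r => spl q (sb a p r))).sum = spl (p * q) a := by
    rw [spl_mul]
    unfold spl
    rw [Multiset.bind_map]
    rfl
  rwa [e4] at key

end

end Pool.Agent.P8H56.CT
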