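import Pool.Agent.P8H56.CT.Good

set_option autoImplicit false

/-!
# Joins of two steps, and merges of two members
-/

namespace Pool.Agent.P8H56.CT

open Multiset Relation

variable {S : Finset ℕ} (hS : ∀ p ∈ S, Nat.Prime p)

include hS

/-- two steps from `y` below `x` have a join below `x`, which splits few members -/
theorem join {y u v x : Multiset (ℤ → ℤ)} {K : ℕ}
    (hK : ∀ p ∈ S, ∀ q ∈ S, p * q ≤ K ∧ p + q ≤ K) (hy : Gd y)
    (hu : Step S y u) (hv : Step S y v) (hux : Le S u x) (hvx : Le S v x) :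
    ∃ w s s' t, Le S u w ∧ Le S v w ∧ Le S w x ∧ y = s + t ∧ w = s' + t ∧ Le S s s' ∧
      s'.card ≤ K := by
  have hx : Gd x := (Le.gd_iff hS hux).1 ((hu.gd_iff hS).1 hy)
  obtain ⟨p, hp, a, t₁, rfl, rfl⟩ := hu
  obtain ⟨q, hq, b, t₂, e, rfl⟩ := hv
  have hpp := hS p hp
  have hqq := hS q hq
  have hpS : Sm S p := ⟨hpp.ne_zero, fun p' hp' h => by
    rw [(Nat.prime_dvd_prime_iff_eq hp' hpp).1 h]; exact hp⟩
  have hqS : Sm S q := ⟨hqq.ne_zero, fun p' hp' h => by
    rw [(Nat.prime_dvd_prime_iff_eq hp' hqq).1 h]; exact hq⟩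
  rw [Multiset.cons_eq_cons] at e
  rcases e with ⟨rfl, rfl⟩ | ⟨hab, cs, rfl, rfl⟩
  · by_cases hpq : p = q
    · subst hpq
      refine ⟨spl p a + t₁, {a}, spl p a, t₁, Le.refl _, Le.refl _, hux,
        (Multiset.singleton_add _ _).symm, rfl, le_spl hpS a, ?_⟩
      rw [card_spl]
      have := (hK p hp p hp).2
      omega
    · obtain ⟨x₁, x₂, rfl, h1, h2⟩ := le_add_inv hux
      obtain ⟨x₁', x₂', e, h1', h2'⟩ := le_add_inv hvx
      have ga : Gd {a} := hy.of_le (by rw [← Multiset.singleton_add]; exact Multiset.le_add_right _ _)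
      have hcnt : ∀ n, cnt n x₁ = cnt n x₁' := by
        intro n
        rw [Le.cnt_eq hS ((le_spl hpS a).trans h1) ga,
          Le.cnt_eq hS ((le_spl hqS a).trans h1') ga]
      obtain ⟨rfl, rfl⟩ := decomp_unique hx e hcnt
      have h3 := split_mul hS hp hq hpq hy.inj h1 h1'
      refine ⟨spl (p * q) a + t₁, {a}, spl (p * q) a, t₁,
        (spl_le_spl_mul hqS a).add_right _, ?_, h3.add h2,
        (Multiset.singleton_add _ _).symm, rfl, le_spl (hpS.mul hqS) a, ?_⟩
      · rw [mul_comm]
        exact (spl_le_spl_mul hpS a).add_right _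
      · rw [card_spl]
        exact (hK p hp q hq).1
  · -- two different members
    have hux' : Le S (spl p a + ({b} + cs)) x := by rwa [Multiset.singleton_add]
    have hvx' : Le S (spl q b + ({a} + cs)) x := by rwa [Multiset.singleton_add]
    obtain ⟨x₁, x₂, rfl, h1, h2⟩ := le_add_inv hux'
    obtain ⟨x₃, x₄, rfl, h3, h4⟩ := le_add_inv h2
    obtain ⟨z₁, z₂, e1, g1, g2⟩ := le_add_inv hvx'
    obtain ⟨z₃, z₄, rfl, g3, g4⟩ := le_add_inv g2
    have ga : Gd {a} := hy.of_le (by rw [← Multiset.singleton_add]; exact Multiset.le_add_right _ _)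
    have gb : Gd {b} := hy.of_le (by
      rw [← Multiset.singleton_add, ← Multiset.singleton_add, add_left_comm]
      exact Multiset.le_add_right _ _)
    have c1 : ∀ n, cnt n x₁ = cnt n z₃ := by
      intro n
      rw [Le.cnt_eq hS ((le_spl hpS a).trans h1) ga, Le.cnt_eq hS g3 ga]
    have c2 : ∀ n, cnt n x₃ = cnt n z₁ := by
      intro n
      rw [Le.cnt_eq hS ((le_spl hqS b).trans g1) gb, Le.cnt_eq hS h3 gb]
    have e2 : x₁ + (x₃ + x₄) = z₃ + (z₁ + z₄) := by rw [e1, add_left_comm]
    obtain ⟨rfl, e3⟩ := decomp_unique hx e2 c1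
    obtain ⟨rfl, rfl⟩ := decomp_unique hx.right e3 c2
    refine ⟨spl p a + spl q b + cs, {a} + {b}, spl p a + spl q b, cs, ?_, ?_, ?_, ?_, rfl,
      (le_spl hpS a).add (le_spl hqS b), ?_⟩
    · rw [← Multiset.singleton_add, add_assoc]
      exact (Le.refl _).add ((le_spl hqS b).add_right _)
    · rw [← Multiset.singleton_add, add_assoc, add_left_comm (spl p a)]
      exact (Le.refl _).add ((le_spl hpS a).add_right _)
    · rw [add_assoc]
      exact h1.add (g1.add h4)
    · rw [add_assoc, Multiset.singleton_add, Multiset.singleton_add]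
    · rw [Multiset.card_add, card_spl, card_spl]
      exact (hK p hp q hq).2

omit hS

/-- the merge of two maps -/
def mrg (u v : ℤ → ℤ) : ℤ → ℤ := fun z => if z % 2 = 0 then u (z / 2) else v (z / 2)

theorem spl_mrg (u v : ℤ → ℤ) : spl 2 (mrg u v) = {u, v} := by
  have h0 : sb (mrg u v) 2 0 = u := by
    funext z
    simp only [sb, mrg]
    rw [if_pos (by push_cast; omega)]
    congr 1
    push_cast
    omega
  have h1 : sb (mrg u v) 2 1 = v := by
    funext z
    simp only [sb, mrg]
    rw [if_neg (by push_cast; omega)]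
    congr 1
    push_cast
    omega
  unfold spl
  rw [Multiset.range_succ, Multiset.range_succ, Multiset.range_zero, Multiset.map_cons,
    Multiset.map_cons, Multiset.map_zero, h0, h1, Multiset.cons_zero, ← Multiset.insert_eq_cons,
    Multiset.pair_comm]

theorem step_mrg (h2 : 2 ∈ S) (u v : ℤ → ℤ) (t : Multiset (ℤ → ℤ)) :
    Step S (mrg u v ::ₘ t) ({u, v} + t) := by
  rw [← spl_mrg]
  exact step_spl h2 _ _

theorem exists_pair {t : Multiset (ℤ → ℤ)} (h : 2 ≤ t.card) : ∃ u v t', t = {u, v} + t' := by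
  induction t using Multiset.induction with
  | empty => simp at h
  | cons a t ih =>
    induction t using Multiset.induction with
    | empty => simp at h
    | cons b t _ =>
      exact ⟨a, b, t, by
        rw [Multiset.insert_eq_cons, Multiset.cons_add, Multiset.singleton_add]⟩

include hS in
/-- the new member of a merge is not an old member -/
theorem notMem_of_spl {p : ℕ} (hp : p ∈ S) {a : ℤ → ℤ} {t : Multiset (ℤ → ℤ)}
    (h : Gd (spl p a + t)) : a ∉ spl p a + t := by
  intro ha
  have hpp := hS p hp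
  have hinj : Function.Injective a := inj_of_spl hpp.pos h.left
  rcases Multiset.mem_add.1 ha with ha | ha
  · obtain ⟨r, _, e⟩ := mem_spl.1 ha
    have h0 := hinj (congrFun e 0 : a _ = a _)
    have h1 := hinj (congrFun e 1 : a _ = a _)
    have h2 : (p : ℤ) = 1 := by linarith
    exact hpp.ne_one (by exact_mod_cast h2)
  · have h1 := cnt_pos_of_mem ha 0
    have h2 : 0 < cnt (a 0) (spl p a) := by
      rw [cnt_spl hinj hpp.pos]
      exact cnt_pos_of_mem (Multiset.mem_singleton_self a) 0
    have h3 := h.2 (a 0)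
    rw [cnt_add] at h3
    omega

end Pool.Agent.P8H56.CT
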