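import Pool.Agent.P8H56.CT.Act
import Pool.Agent.P8H56.CT.Crit

set_option autoImplicit false

/-!
# The group generated by class transpositions with moduli in `S` is finitely presented
-/

namespace Pool.Agent.P8H56.CT

open Multiset Relation Equiv Pool.Agent.Helper111.CT

variable {S : Finset ℕ}

theorem adm (h2 : 2 ∈ S) : Adm (Mo S) where
  one := ⟨one_pos, by simpa using Sm.one⟩
  two := ⟨two_pos, by
    have : (2 : ℤ).toNat = 2 := rfl
    rw [this]
    exact ⟨two_ne_zero, fun p hp h => by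
      rw [(Nat.prime_dvd_prime_iff_eq hp Nat.prime_two).1 h]; exact h2⟩⟩
  mul a b ha hb := by
    obtain ⟨a', rfl, ha'⟩ := exists_of_mo ha
    obtain ⟨b', rfl, hb'⟩ := exists_of_mo hb
    rw [← Nat.cast_mul]
    exact mo_of (ha'.mul hb')

/-- the truncated poset -/
def XN (S : Finset ℕ) (N : ℕ) : Type := {x : Multiset (ℤ → ℤ) // PX S x ∧ x.card ≤ N}

theorem finite_up (S : Finset ℕ) (x : Multiset (ℤ → ℤ)) : {y | Step S x y}.Finite := by
  classical
  have : {y | Step S x y} ⊆ ⋃ p ∈ S, ⋃ a ∈ x.toFinset, {spl p a + x.erase a} := by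
    rintro y ⟨p, hp, a, t, rfl, rfl⟩
    simp only [Set.mem_iUnion]
    refine ⟨p, hp, a, by simp, ?_⟩
    rw [Set.mem_singleton_iff, Multiset.erase_cons_head]
  refine Set.Finite.subset ?_ this
  exact Set.Finite.biUnion (Finset.finite_toSet S) fun p _ =>
    Set.Finite.biUnion (Finset.finite_toSet _) fun a _ => Set.finite_singleton _

theorem finite_nat (hS : ∀ p ∈ S, Nat.Prime p) (N : ℕ) :
    {x : Multiset (ℤ → ℤ) | Le S {id} x ∧ x.card ≤ N}.Finite := by
  induction N with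
  | zero =>
    refine Set.Finite.subset (Set.finite_singleton 0) ?_
    rintro x ⟨_, hx⟩
    exact Multiset.card_eq_zero.1 (Nat.le_zero.1 hx)
  | succ N ih =>
    have h1 : (⋃ y ∈ {x : Multiset (ℤ → ℤ) | Le S {id} x ∧ x.card ≤ N}, {x | Step S y x}).Finite :=
      ih.biUnion fun y _ => finite_up S y
    refine Set.Finite.subset (h1.union (Set.finite_singleton {id})) ?_
    rintro x ⟨hx, hN⟩
    by_cases he : {id} = x
    · right
      exact he.symm
    · left
      obtain ⟨y, hy1, hy2⟩ := hx.exists_tail he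
      have := hy2.card_lt hS
      simp only [Set.mem_iUnion]
      exact ⟨y, ⟨hy1, by omega⟩, hy2⟩

theorem finite_move {x y : Multiset (ℤ → ℤ)} (hx : ∀ n, cnt n x = 1) :
    {g : Perm ℤ | act g x = y}.Finite := by
  classical
  let f : Perm ℤ → (ℤ → ℤ) → (ℤ → ℤ) := fun g a => if a ∈ x then g ∘ a else id
  have hf : Set.InjOn f {g : Perm ℤ | act g x = y} := by
    intro g _ g' _ h
    ext n
    have h1 : 0 < cnt n x := by rw [hx]; exact one_pos
    obtain ⟨a, ha, k, rfl⟩ := cnt_pos.1 h1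
    have h2 := congrFun (congrFun h a) k
    simp only [f, if_pos ha] at h2
    exact h2
  refine Set.Finite.of_finite_image ?_ hf
  -- functions supported on a finite set
  let F : ({z // z ∈ x.toFinset} → {z // z ∈ y.toFinset}) → ((ℤ → ℤ) → (ℤ → ℤ)) :=
    fun φ a => if ha : a ∈ x then (φ ⟨a, by simpa using ha⟩).1 else id
  refine Set.Finite.subset (Set.finite_range F) ?_
  rintro _ ⟨g, hg, rfl⟩
  refine ⟨fun a => ⟨g ∘ a.1, ?_⟩, ?_⟩
  · have ha : a.1 ∈ x := Multiset.mem_toFinset.1 a.2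
    have : g ∘ a.1 ∈ y := by
      rw [← hg]
      exact Multiset.mem_map_of_mem _ ha
    simpa using this
  · funext a
    simp only [F, f]
    split_ifs <;> rfl

/-- **Main theorem.** -/
theorem fp (hS : ∀ p ∈ S, Nat.Prime p) (h2 : 2 ∈ S) :
    Group.IsFinitelyPresented (CTg (Mo S)) := by
  classical
  have hadm := adm h2
  obtain ⟨B, hB⟩ : ∃ B, ∀ p ∈ S, p ≤ B := ⟨S.sup id, fun p hp => Finset.le_sup (f := id) hp⟩
  set K := B * B + 2 * B with hKdef
  have hK : ∀ p ∈ S, ∀ q ∈ S, p * q ≤ K ∧ p + q ≤ K := by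
    intro p hp q hq
    have h1 := hB p hp
    have h3 := hB q hq
    constructor
    · exact (Nat.mul_le_mul h1 h3).trans (Nat.le_add_right _ _)
    · have : p + q ≤ 2 * B := by omega
      exact this.trans (Nat.le_add_left _ _)
  set N := 4 * K + 2 with hN
  let G := CTg (Mo S)
  have hfull : ∀ g : G, Full (Mo S) (g : Perm ℤ) := fun g => (mem_CTg_iff hadm _).1 g.2
  let _ : MulAction G (XN S N) :=
    { smul := fun g x => ⟨act g x.1, px_act hS (hfull g) x.2.1, by rw [card_act]; exact x.2.2⟩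
      one_smul := fun x => Subtype.ext (act_one x.1)
      mul_smul := fun g h x => Subtype.ext (act_mul g h x.1) }
  have hsm : ∀ (g : G) (x : XN S N), (g • x).1 = act g x.1 := fun _ _ => rfl
  have hN1 : 1 ≤ N := by omega
  refine fp_of_action (G := G) (X := XN S N) (fun x y => Le S x.1 y.1) (fun x => Le.refl _)
    (fun g x y h => h.act g) {x | Le S {id} x.1} ⟨{id}, px_id, by simpa using hN1⟩
    (Le.refl _) (fun u hu => hu) (fun u v hu hv => Le.trans hu hv) ?_ ?_ ?_ ?_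
  · -- covering
    intro x
    have hpos := x.2.1.card_pos hS
    have hcomb : ∀ n, 1 ≤ n → ∃ ν, Le S {id} ν ∧ ν.card = n := by
      intro n hn
      induction n, hn using Nat.le_induction with
      | base => exact ⟨{id}, Le.refl _, by simp⟩
      | succ n hn ih =>
        obtain ⟨ν, h1, h3⟩ := ih
        obtain ⟨a, ha⟩ := Multiset.card_pos_iff_exists_mem.1 (by omega : 0 < ν.card)
        obtain ⟨t, rfl⟩ := Multiset.exists_cons_of_mem ha
        refine ⟨spl 2 a + t, h1.trans (Le.of_step (step_spl h2 a t)), ?_⟩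
        rw [Multiset.card_add, card_spl]
        rw [Multiset.card_cons] at h3
        omega
    obtain ⟨ν, h1, h3⟩ := hcomb x.1.card hpos
    obtain ⟨g, hg, hgx⟩ := transit hS x.2.1 h1 h3.symm
    refine ⟨⟨g, (mem_CTg_iff hadm g).2 hg⟩, ?_⟩
    show Le S {id} (act g x.1)
    rw [hgx]; exact h1
  · -- finiteness
    have hfinU := finite_nat hS N
    have h1 : (⋃ u ∈ {x : Multiset (ℤ → ℤ) | Le S {id} x ∧ x.card ≤ N},
        ⋃ v ∈ {x : Multiset (ℤ → ℤ) | Le S {id} x ∧ x.card ≤ N},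
          {g : Perm ℤ | act g u = v}).Finite :=
      hfinU.biUnion fun u hu => hfinU.biUnion fun v _ =>
        finite_move (px_cnt hS (nat_px hS hu.1))
    refine Set.Finite.of_finite_image (f := Subtype.val) (h1.subset ?_)
      Subtype.val_injective.injOn
    rintro _ ⟨g, ⟨u, hu, hgu⟩, rfl⟩
    simp only [Set.mem_iUnion]
    exact ⟨u.1, ⟨hu, u.2.2⟩, act g u.1, ⟨hgu, by rw [card_act]; exact u.2.2⟩, rfl⟩
  · -- connectivity
    intro P hP0 hP x
    let Q : Multiset (ℤ → ℤ) → Prop := fun y => ∃ h : PX S y ∧ y.card ≤ N, P ⟨y, h⟩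
    have hQ : ∀ a b, PX S b → b.card ≤ N → Le S a b → (Q a ↔ Q b) := by
      intro a b hb hbN hab
      have ha : PX S a ∧ a.card ≤ N := ⟨hb.of_le hab, (Le.card_le hS hab).trans hbN⟩
      constructor
      · rintro ⟨h, hp⟩
        exact ⟨⟨hb, hbN⟩, (hP ⟨a, h⟩ ⟨b, hb, hbN⟩ hab).1 hp⟩
      · rintro ⟨h, hp⟩
        exact ⟨ha, (hP ⟨a, ha⟩ ⟨b, h⟩ hab).2 hp⟩
    have h1 := connected hS h2 hK (by omega) Q hQ {id} x.1 px_id x.2.1 (by simpa using hN1) x.2.2
    obtain ⟨_, h3⟩ := h1.1 ⟨⟨px_id, by simpa using hN1⟩, hP0⟩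
    exact h3
  · -- cocycles
    intro Γ _ c hc
    let c' : Multiset (ℤ → ℤ) → Multiset (ℤ → ℤ) → Γ := fun a b =>
      if h : (PX S a ∧ a.card ≤ N) ∧ (PX S b ∧ b.card ≤ N) then c ⟨a, h.1⟩ ⟨b, h.2⟩ else 1
    have hc' : Coc S N c' := by
      intro a b d hd hdN hab hbd
      have h3 : PX S d ∧ d.card ≤ N := ⟨hd, hdN⟩
      have h2 : PX S b ∧ b.card ≤ N := ⟨hd.of_le hbd, (Le.card_le hS hbd).trans hdN⟩
      have h1 : PX S a ∧ a.card ≤ N := ⟨h2.1.of_le hab, (Le.card_le hS hab).trans h2.2⟩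
      simp only [c', dif_pos (And.intro h1 h2), dif_pos (And.intro h2 h3),
        dif_pos (And.intro h1 h3)]
      exact hc ⟨a, h1⟩ ⟨b, h2⟩ ⟨d, h3⟩ hab hbd
    obtain ⟨f, hf⟩ := coboundary hS h2 hK (by omega) hc'
    refine ⟨fun x => f x.1, fun x y hxy => ?_⟩
    have h1 := hf x.1 y.1 y.2.1 y.2.2 hxy
    simp only [c', dif_pos (And.intro x.2 y.2)] at h1
    exact h1

end Pool.Agent.P8H56.CT
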