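import Pool.Agent.P8H56.CT.Ext

set_option autoImplicit false

/-!
# The poset of bases: directedness, connectivity, triviality of cocycles
-/

namespace Pool.Agent.P8H56.CT

open Multiset Relation

variable {S : Finset ℕ}

variable (S) in
/-- multisets of maps which can be split to all residue classes modulo some number -/
def PX (x : Multiset (ℤ → ℤ)) : Prop := ∃ M, Sm S M ∧ Le S x (spl M id)

theorem cnt_id (n : ℤ) : cnt n {id} = 1 := by
  classical
  rw [cnt_singleton, if_pos ⟨n, rfl⟩]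

theorem gd_id : Gd {id} := by
  refine ⟨fun a ha => ?_, fun n => (cnt_id n).le⟩
  rw [Multiset.mem_singleton.1 ha]
  exact Function.injective_id

theorem PX.of_le {x y : Multiset (ℤ → ℤ)} (h : PX S x) (hy : Le S y x) : PX S y := by
  obtain ⟨M, hM, h⟩ := h
  exact ⟨M, hM, hy.trans h⟩

theorem px_spl {M : ℕ} (hM : Sm S M) : PX S (spl M id) := ⟨M, hM, Le.refl _⟩

theorem px_id : PX S {id} := ⟨1, Sm.one, le_spl Sm.one _⟩

theorem PX.directed {x y : Multiset (ℤ → ℤ)} (hx : PX S x) (hy : PX S y) :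
    ∃ M, Sm S M ∧ Le S x (spl M id) ∧ Le S y (spl M id) := by
  obtain ⟨M, hM, hx⟩ := hx
  obtain ⟨M', hM', hy⟩ := hy
  refine ⟨M * M', hM.mul hM', hx.trans (spl_le_spl_mul hM' _), hy.trans ?_⟩
  rw [mul_comm]
  exact spl_le_spl_mul hM _

section

variable (hS : ∀ p ∈ S, Nat.Prime p)

include hS

theorem PX.gd {x : Multiset (ℤ → ℤ)} (h : PX S x) : Gd x := by
  obtain ⟨M, hM, h⟩ := h
  exact (Le.gd_iff hS h).2 ((Le.gd_iff hS (le_spl hM id)).1 gd_id)

theorem px_cnt {x : Multiset (ℤ → ℤ)} (h : PX S x) (n : ℤ) : cnt n x = 1 := by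
  have hg := h.gd hS
  obtain ⟨M, hM, h⟩ := h
  rw [← Le.cnt_eq hS h hg, Le.cnt_eq hS (le_spl hM id) gd_id, cnt_id]

theorem PX.card_pos {x : Multiset (ℤ → ℤ)} (h : PX S x) : 0 < x.card := by
  have h1 := px_cnt hS h 0
  have h2 : 0 < cnt 0 x := by omega
  obtain ⟨a, ha, _⟩ := cnt_pos.1 h2
  exact Multiset.card_pos_iff_exists_mem.2 ⟨a, ha⟩

end

/-- cocycles on the part of the poset of members with at most `n` members -/
def Coc (S : Finset ℕ) {Γ : Type} [Group Γ] (n : ℕ)
    (c : Multiset (ℤ → ℤ) → Multiset (ℤ → ℤ) → Γ) : Prop :=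
  ∀ a b d, PX S d → d.card ≤ n → Le S a b → Le S b d → c a b * c b d = c a d

section

variable {Γ : Type} [Group Γ]

theorem ext_level (hS : ∀ p ∈ S, Nat.Prime p) (h2 : 2 ∈ S) {K : ℕ}
    (hK : ∀ p ∈ S, ∀ q ∈ S, p * q ≤ K ∧ p + q ≤ K) {n : ℕ} (hn : 4 * K + 2 ≤ n + 1)
    {c : Multiset (ℤ → ℤ) → Multiset (ℤ → ℤ) → Γ} (hc : Coc S n c) :
    ∃ c' : Multiset (ℤ → ℤ) → Multiset (ℤ → ℤ) → Γ,
      (∀ a b, b.card ≤ n → c' a b = c a b) ∧ Coc S (n + 1) c' := by
  classical
  have h1 : ∀ x : Multiset (ℤ → ℤ), ∃ g : Multiset (ℤ → ℤ) → Γ, PX S x → x.card = n + 1 →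
      ∀ y y', Le S y y' → Le S y' x → y' ≠ x → c y y' * g y' = g y := by
    intro x
    by_cases hx : PX S x ∧ x.card = n + 1
    · obtain ⟨hx, hxn⟩ := hx
      obtain ⟨g, hg⟩ := ext_at (c := c) hS h2 (hx.gd hS) hK (by omega) (by
        intro a b d hab hbd hdx hne
        refine hc a b d (hx.of_le hdx) ?_ hab hbd
        have h1 := Le.card_le hS hdx
        by_contra h3
        exact hne (Le.eq_of_card hS hdx (by omega)))
      exact ⟨g, fun _ _ => hg⟩
    · exact ⟨fun _ => 1, fun h1 h2 => absurd ⟨h1, h2⟩ hx⟩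
  choose g hg using h1
  refine ⟨fun a b => if b.card ≤ n then c a b else if a = b then 1 else g b a, ?_, ?_⟩
  · intro a b h
    simp only [if_pos h]
  · intro a b d hd hdn hab hbd
    have k1 := Le.card_le hS hab
    have k2 := Le.card_le hS hbd
    by_cases hdn' : d.card ≤ n
    · have hbn : b.card ≤ n := k2.trans hdn'
      simp only [if_pos hdn', if_pos hbn]
      exact hc a b d hd hdn' hab hbd
    · simp only [if_neg hdn']
      by_cases hbd' : b = d
      · subst hbd'
        simp only [if_true, if_neg hdn', mul_one]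
      · have hbn : b.card ≤ n := by
          by_contra h3
          exact hbd' (Le.eq_of_card hS hbd (by omega))
        have had : a ≠ d := by
          intro h
          subst h
          omega
        simp only [if_pos hbn, if_neg hbd', if_neg had]
        exact hg d hd (by omega) a b hab hbd hbd'

/-- all cocycles are coboundaries -/
theorem coboundary (hS : ∀ p ∈ S, Nat.Prime p) (h2 : 2 ∈ S) {K : ℕ}
    (hK : ∀ p ∈ S, ∀ q ∈ S, p * q ≤ K ∧ p + q ≤ K) {N : ℕ} (hN : 4 * K + 2 ≤ N + 1)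
    {c : Multiset (ℤ → ℤ) → Multiset (ℤ → ℤ) → Γ} (hc : Coc S N c) :
    ∃ f : Multiset (ℤ → ℤ) → Γ, ∀ a b, PX S b → b.card ≤ N → Le S a b →
      c a b = (f a)⁻¹ * f b := by
  classical
  have hex : ∀ k (c : {c : Multiset (ℤ → ℤ) → Multiset (ℤ → ℤ) → Γ // Coc S (N + k) c}),
      ∃ c' : {c : Multiset (ℤ → ℤ) → Multiset (ℤ → ℤ) → Γ // Coc S (N + (k + 1)) c},
        ∀ a b, b.card ≤ N + k → c'.1 a b = c.1 a b := by
    intro k c
    obtain ⟨c', h1, h2⟩ := ext_level hS h2 hK (n := N + k) (by omega) c.2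
    exact ⟨⟨c', h2⟩, h1⟩
  choose nx hnx using hex
  let C : (k : ℕ) → {c : Multiset (ℤ → ℤ) → Multiset (ℤ → ℤ) → Γ // Coc S (N + k) c} :=
    fun k => Nat.rec (motive := fun k =>
      {c : Multiset (ℤ → ℤ) → Multiset (ℤ → ℤ) → Γ // Coc S (N + k) c}) ⟨c, hc⟩ nx k
  have hC0 : (C 0).1 = c := rfl
  have hCs : ∀ k a b, b.card ≤ N + k → (C (k + 1)).1 a b = (C k).1 a b := fun k => hnx k (C k)
  let D : ℕ → Multiset (ℤ → ℤ) → Multiset (ℤ → ℤ) → Γ := fun k => (C k).1
  have hDs : ∀ k a b, b.card ≤ N + k → D (k + 1) a b = D k a b := hCs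
  have hst : ∀ j k a b, b.card ≤ N + j → D (j + k) a b = D j a b := by
    intro j k
    induction k with
    | zero => intro a b _; rfl
    | succ k ih =>
      intro a b h
      rw [← add_assoc, hDs _ a b (by omega), ih a b h]
  let d : Multiset (ℤ → ℤ) → Multiset (ℤ → ℤ) → Γ := fun a b => D (b.card - N) a b
  have hd : ∀ k a b, b.card ≤ N + k → D k a b = d a b := by
    intro k a b h
    have h1 := hst (b.card - N) (k - (b.card - N)) a b (by omega)
    have e : b.card - N + (k - (b.card - N)) = k := by omega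
    rw [e] at h1
    exact h1
  have hdc : ∀ a b e, PX S e → Le S a b → Le S b e → d a b * d b e = d a e := by
    intro a b e he hab hbe
    have h1 := Le.card_le hS hab
    have h3 := Le.card_le hS hbe
    rw [← hd e.card a b (by omega), ← hd e.card b e (by omega), ← hd e.card a e (by omega)]
    exact (C e.card).2 a b e he (by omega) hab hbe
  -- the potential
  have hX : ∀ x, ∃ M, PX S x → Sm S M ∧ Le S x (spl M id) := by
    intro x
    by_cases hx : PX S x
    · obtain ⟨M, hM⟩ := hx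
      exact ⟨M, fun _ => hM⟩
    · exact ⟨0, fun h => absurd h hx⟩
  choose M hM using hX
  have indep : ∀ x M M', Sm S M → Sm S M' → Le S x (spl M id) → Le S x (spl M' id) →
      d {id} (spl M id) * (d x (spl M id))⁻¹ = d {id} (spl M' id) * (d x (spl M' id))⁻¹ := by
    have key : ∀ x M M', Sm S M → Sm S M' → Le S x (spl M id) →
        d {id} (spl M id) * (d x (spl M id))⁻¹ =
          d {id} (spl (M * M') id) * (d x (spl (M * M') id))⁻¹ := by
      intro x M M' hM hM' h
      have e1 := hdc _ _ _ (px_spl (hM.mul hM')) (le_spl hM id) (spl_le_spl_mul hM' id)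
      have e2 := hdc _ _ _ (px_spl (hM.mul hM')) h (spl_le_spl_mul hM' id)
      rw [← e1, ← e2]
      group
    intro x M M' hM hM' h h'
    rw [key x M M' hM hM' h, key x M' M hM' hM h', mul_comm M M']
  refine ⟨fun x => d {id} (spl (M x) id) * (d x (spl (M x) id))⁻¹, ?_⟩
  intro a b hb hbN hab
  have ha : PX S a := hb.of_le hab
  have e0 : c a b = d a b := by
    rw [← hd 0 a b (by omega)]
    exact (congrFun (congrFun hC0 a) b).symm
  have e1 := indep a (M a) (M b) (hM a ha).1 (hM b hb).1 (hM a ha).2 (hab.trans (hM b hb).2)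
  have e2 := hdc a b _ (px_spl (hM b hb).1) hab (hM b hb).2
  show c a b = (d {id} (spl (M a) id) * (d a (spl (M a) id))⁻¹)⁻¹ *
    (d {id} (spl (M b) id) * (d b (spl (M b) id))⁻¹)
  rw [e1, e0, ← e2]
  group

end

/-- every member of the poset has a small one below it -/
theorem exists_low (hS : ∀ p ∈ S, Nat.Prime p) (h2 : 2 ∈ S) {N : ℕ} (hN : 1 ≤ N) :
    ∀ (k : ℕ) (z : Multiset (ℤ → ℤ)), z.card ≤ k → ∃ x, Le S x z ∧ x.card ≤ N := by
  intro k
  induction k with
  | zero => intro z hz; exact ⟨z, Le.refl _, by omega⟩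
  | succ k ih =>
    intro z hz
    by_cases h : z.card ≤ N
    · exact ⟨z, Le.refl _, h⟩
    · obtain ⟨u, v, t, rfl⟩ := exists_pair (t := z) (by omega)
      have h1 := step_mrg (S := S) h2 u v t
      have h3 := h1.card_lt hS
      obtain ⟨x, hx1, hx2⟩ := ih (mrg u v ::ₘ t) (by omega)
      exact ⟨x, hx1.trans (Le.of_step h1), hx2⟩

/-- the truncated poset is connected -/
theorem connected (hS : ∀ p ∈ S, Nat.Prime p) (h2 : 2 ∈ S) {K : ℕ}
    (hK : ∀ p ∈ S, ∀ q ∈ S, p * q ≤ K ∧ p + q ≤ K) {N : ℕ} (hN : 4 * K + 2 ≤ N + 1)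
    (P : Multiset (ℤ → ℤ) → Prop)
    (hP : ∀ a b, PX S b → b.card ≤ N → Le S a b → (P a ↔ P b)) :
    ∀ x y, PX S x → PX S y → x.card ≤ N → y.card ≤ N → (P x ↔ P y) := by
  have hN1 : 1 ≤ N := by
    have := (hK 2 h2 2 h2).1
    omega
  have key : ∀ (k : ℕ) (z : Multiset (ℤ → ℤ)), PX S z → z.card ≤ k → ∀ x y, x.card ≤ N →
      y.card ≤ N → Le S x z → Le S y z → (P x ↔ P y) := by
    intro k
    induction k with
    | zero =>
      intro z hz hzk
      have := hz.card_pos hS
      omega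
    | succ k ih =>
      intro z hz hzk x y hx hy hxz hyz
      by_cases hzN : z.card ≤ N
      · exact (hP x z hz hzN hxz).trans (hP y z hz hzN hyz).symm
      · have hxz' : x ≠ z := fun h => by subst h; omega
        have hyz' : y ≠ z := fun h => by subst h; omega
        obtain ⟨w, hw1, hw2⟩ := hxz.exists_tail hxz'
        obtain ⟨A, rfl⟩ := Vx.exists_of_step hw2
        obtain ⟨w, hw3, hw4⟩ := hyz.exists_tail hyz'
        obtain ⟨B, rfl⟩ := Vx.exists_of_step hw4
        obtain ⟨W, hA, hB, _, _⟩ := common (x := z) h2 hK (by omega) A B A B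
        have cA := hw2.card_lt hS
        have cB := hw4.card_lt hS
        have cW := W.step_y.card_lt hS
        obtain ⟨mA1, mA2⟩ := m_le hA
        obtain ⟨mB1, mB2⟩ := m_le hB
        obtain ⟨x', hx1, hx2⟩ := exists_low hS h2 hN1 _ (W.m A) le_rfl
        obtain ⟨y', hy1, hy2⟩ := exists_low hS h2 hN1 _ (W.m B) le_rfl
        have i1 := ih A.y (hz.of_le (Le.of_step hw2)) (by omega) x x' hx hx2 hw1 (hx1.trans mA2)
        have i2 := ih W.y (hz.of_le (Le.of_step W.step_y)) (by omega) x' y' hx2 hy2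
          (hx1.trans mA1) (hy1.trans mB1)
        have i3 := ih B.y (hz.of_le (Le.of_step hw4)) (by omega) y' y hy2 hy (hy1.trans mB2) hw3
        exact i1.trans (i2.trans i3)
  intro x y hx hy hxN hyN
  obtain ⟨M, hM, h1, h3⟩ := hx.directed hy
  exact key _ _ (px_spl hM) le_rfl x y hxN hyN h1 h3

end Pool.Agent.P8H56.CT
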