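import Mathlib

set_option autoImplicit false

/-!
# Splitting multisets of maps of the integers

`spl p a` is the multiset of the `p` restrictions of `a` to the residue classes modulo `p`. A step
replaces a member `a` of a multiset by `spl p a`, with `p` in the finite set `S`.
-/

namespace Pool.Agent.P8H56.CT

open Multiset Relation

/-- the restriction of `a` to the class `r` modulo `p` -/
def sb (a : ℤ → ℤ) (p r : ℕ) : ℤ → ℤ := fun z => a (p * z + r)

/-- the restrictions of `a` to all classes modulo `p` -/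
def spl (p : ℕ) (a : ℤ → ℤ) : Multiset (ℤ → ℤ) := (range p).map (sb a p)

theorem card_spl (p : ℕ) (a : ℤ → ℤ) : (spl p a).card = p := by simp [spl]

theorem sb_sb (a : ℤ → ℤ) (p q r s : ℕ) : sb (sb a p r) q s = sb a (p * q) (p * s + r) := by
  funext z
  simp only [sb]
  congr 1
  push_cast
  ring

theorem spl_one (a : ℤ → ℤ) : spl 1 a = {a} := by
  have : sb a 1 0 = a := by funext z; simp [sb]
  simp [spl, Multiset.range_succ, this]

theorem mem_spl {p : ℕ} {a b : ℤ → ℤ} : b ∈ spl p a ↔ ∃ r < p, sb a p r = b := by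
  simp [spl]

theorem range_mul (p q : ℕ) :
    range (p * q) = (range p).bind (fun r => (range q).map (fun s => p * s + r)) := by
  induction q with
  | zero => simp
  | succ q ih =>
    rw [mul_add, mul_one]
    have h1 : range (p * q + p) = range (p * q) + (range p).map (fun x => p * q + x) :=
      Multiset.range_add _ _
    have h2 : ∀ r, (range (q + 1)).map (fun s => p * s + r) =
        (range q).map (fun s => p * s + r) + {p * q + r} := by
      intro r
      rw [Multiset.range_succ, Multiset.map_cons, ← Multiset.singleton_add, add_comm]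
    rw [h1, ih]
    simp_rw [h2]
    rw [Multiset.bind_add, Multiset.bind_singleton]

theorem spl_mul (p q : ℕ) (a : ℤ → ℤ) : spl (p * q) a = (spl p a).bind (spl q) := by
  unfold spl
  rw [range_mul, Multiset.map_bind, Multiset.bind_map]
  congr 1
  funext r
  rw [Multiset.map_map]
  congr 1
  funext s
  rw [sb_sb]
  rfl

variable (S : Finset ℕ)

/-- one splitting -/
def Step (y x : Multiset (ℤ → ℤ)) : Prop :=
  ∃ p ∈ S, ∃ a t, y = a ::ₘ t ∧ x = spl p a + t

/-- the splitting order -/
def Le : Multiset (ℤ → ℤ) → Multiset (ℤ → ℤ) → Prop := ReflTransGen (Step S)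

variable {S}

theorem Le.refl (x : Multiset (ℤ → ℤ)) : Le S x x := ReflTransGen.refl

theorem Le.trans {x y z : Multiset (ℤ → ℤ)} (h : Le S x y) (h' : Le S y z) : Le S x z :=
  ReflTransGen.trans h h'

theorem Le.of_step {x y : Multiset (ℤ → ℤ)} (h : Step S x y) : Le S x y := ReflTransGen.single h

theorem step_spl {p : ℕ} (hp : p ∈ S) (a : ℤ → ℤ) (t : Multiset (ℤ → ℤ)) :
    Step S (a ::ₘ t) (spl p a + t) := ⟨p, hp, a, t, rfl, rfl⟩

theorem Step.add_right {y x : Multiset (ℤ → ℤ)} (h : Step S y x) (t : Multiset (ℤ → ℤ)) :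
    Step S (y + t) (x + t) := by
  obtain ⟨p, hp, a, t', rfl, rfl⟩ := h
  exact ⟨p, hp, a, t' + t, by rw [Multiset.cons_add], by rw [add_assoc]⟩

theorem Le.add_right {y x : Multiset (ℤ → ℤ)} (h : Le S y x) (t : Multiset (ℤ → ℤ)) :
    Le S (y + t) (x + t) := by
  induction h with
  | refl => exact Le.refl _
  | tail _ h ih => exact ih.trans (Le.of_step (h.add_right t))

theorem Le.add {y x y' x' : Multiset (ℤ → ℤ)} (h : Le S y x) (h' : Le S y' x') :
    Le S (y + y') (x + x') := by
  refine (h.add_right y').trans ?_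
  rw [add_comm x y', add_comm x x']
  exact h'.add_right x

theorem le_cons {a : ℤ → ℤ} {x y : Multiset (ℤ → ℤ)} (h : Le S y x) :
    Le S (a ::ₘ y) (a ::ₘ x) := by
  rw [← Multiset.singleton_add, ← Multiset.singleton_add]
  exact (Le.refl _).add h

theorem le_bind {g : (ℤ → ℤ) → Multiset (ℤ → ℤ)} (x : Multiset (ℤ → ℤ))
    (h : ∀ a ∈ x, Le S {a} (g a)) : Le S x (x.bind g) := by
  induction x using Multiset.induction with
  | empty => simpa using Le.refl _
  | cons a t ih =>
    rw [Multiset.cons_bind, ← Multiset.singleton_add]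
    exact (h a (Multiset.mem_cons_self _ _)).add
      (ih fun b hb => h b (Multiset.mem_cons_of_mem hb))

variable (S) in
/-- `M` is a nonzero number all of whose prime factors are in `S` -/
def Sm (M : ℕ) : Prop := M ≠ 0 ∧ ∀ p, p.Prime → p ∣ M → p ∈ S

theorem Sm.one : Sm S 1 := ⟨one_ne_zero, fun p hp h => by
  rw [Nat.dvd_one] at h; exact absurd h hp.ne_one⟩

theorem Sm.mul {M M' : ℕ} (h : Sm S M) (h' : Sm S M') : Sm S (M * M') :=
  ⟨mul_ne_zero h.1 h'.1, fun p hp hd => (hp.dvd_mul.1 hd).elim (h.2 p hp) (h'.2 p hp)⟩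

theorem Sm.of_dvd {M M' : ℕ} (h : Sm S M) (hd : M' ∣ M) : Sm S M' :=
  ⟨fun h0 => h.1 (by rw [h0] at hd; exact Nat.eq_zero_of_zero_dvd hd),
    fun p hp h' => h.2 p hp (h'.trans hd)⟩

theorem le_spl {M : ℕ} (h : Sm S M) : ∀ a : ℤ → ℤ, Le S {a} (spl M a) := by
  induction M using induction_on_primes with
  | zero => exact absurd rfl h.1
  | one => intro a; rw [spl_one]; exact Le.refl _
  | prime_mul p M hp ih =>
    intro a
    have hpS : p ∈ S := h.2 p hp (Dvd.intro _ rfl)
    have hM : Sm S M := h.of_dvd (Dvd.intro_left _ rfl)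
    rw [spl_mul]
    have h1 : Le S {a} (spl p a) := by
      have := Le.of_step (step_spl hpS a 0)
      simpa using this
    exact h1.trans (le_bind _ fun b _ => ih hM b)

theorem spl_le_spl_mul {p M : ℕ} (h : Sm S M) (a : ℤ → ℤ) : Le S (spl p a) (spl (p * M) a) := by
  rw [spl_mul]
  exact le_bind _ fun b _ => le_spl h b

/-- localisation -/
theorem le_add_inv {y₁ y₂ x : Multiset (ℤ → ℤ)} (h : Le S (y₁ + y₂) x) :
    ∃ x₁ x₂, x = x₁ + x₂ ∧ Le S y₁ x₁ ∧ Le S y₂ x₂ := by
  classical
  induction h with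
  | refl => exact ⟨y₁, y₂, rfl, Le.refl _, Le.refl _⟩
  | tail _ h ih =>
    obtain ⟨x₁, x₂, rfl, h1, h2⟩ := ih
    obtain ⟨p, hp, a, t, e1, rfl⟩ := h
    have ha : a ∈ x₁ + x₂ := by rw [e1]; exact Multiset.mem_cons_self _ _
    rcases Multiset.mem_add.1 ha with ha | ha
    · obtain ⟨t', rfl⟩ := Multiset.exists_cons_of_mem ha
      rw [Multiset.cons_add, Multiset.cons_inj_right] at e1
      subst e1
      exact ⟨spl p a + t', x₂, by rw [add_assoc], h1.trans (Le.of_step (step_spl hp a t')), h2⟩
    · obtain ⟨t', rfl⟩ := Multiset.exists_cons_of_mem ha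
      rw [Multiset.add_cons, Multiset.cons_inj_right] at e1
      subst e1
      exact ⟨x₁, spl p a + t', by rw [add_left_comm], h1,
        h2.trans (Le.of_step (step_spl hp a t'))⟩

theorem le_map_range_inv {g : ℕ → (ℤ → ℤ)} (p : ℕ) : ∀ {x : Multiset (ℤ → ℤ)},
    Le S ((range p).map g) x →
    ∃ h : ℕ → Multiset (ℤ → ℤ), x = ((range p).map h).sum ∧ ∀ r < p, Le S {g r} (h r) := by
  classical
  induction p with
  | zero =>
    intro x hx
    refine ⟨fun _ => 0, ?_, fun r hr => absurd hr (Nat.not_lt_zero r)⟩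
    rcases ReflTransGen.cases_head hx with h | ⟨y, ⟨p, _, a, t, e, _⟩, _⟩
    · simpa using h.symm
    · simp at e
  | succ p ih =>
    intro x hx
    rw [Multiset.range_succ, Multiset.map_cons, ← Multiset.singleton_add] at hx
    obtain ⟨x₁, x₂, rfl, h1, h2⟩ := le_add_inv hx
    obtain ⟨h, rfl, hh⟩ := ih h2
    refine ⟨fun r => if r = p then x₁ else h r, ?_, ?_⟩
    · rw [Multiset.range_succ, Multiset.map_cons, Multiset.sum_cons, if_pos rfl]
      congr 2
      apply Multiset.map_congr rfl
      intro r hr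
      rw [Multiset.mem_range] at hr
      rw [if_neg hr.ne]
    · intro r hr
      simp only
      split_ifs with e
      · rw [e]; exact h1
      · exact hh r (by omega)

theorem le_sum_map {g h : ℕ → Multiset (ℤ → ℤ)} (s : Multiset ℕ)
    (hh : ∀ r ∈ s, Le S (g r) (h r)) : Le S (s.map g).sum (s.map h).sum := by
  induction s using Multiset.induction with
  | empty => exact Le.refl _
  | cons a t ih =>
    rw [Multiset.map_cons, Multiset.map_cons, Multiset.sum_cons, Multiset.sum_cons]
    exact (hh a (Multiset.mem_cons_self _ _)).add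
      (ih fun b hb => hh b (Multiset.mem_cons_of_mem hb))

/-- members of refinements of `{a}` -/
theorem mem_of_le {a : ℤ → ℤ} {x : Multiset (ℤ → ℤ)} (h : Le S {a} x) :
    ∀ b ∈ x, ∃ m r : ℕ, b = sb a m r := by
  induction h with
  | refl =>
    intro b hb
    rw [Multiset.mem_singleton] at hb
    exact ⟨1, 0, by rw [hb]; funext z; simp [sb]⟩
  | tail _ h ih =>
    obtain ⟨p, hp, c, t, rfl, rfl⟩ := h
    intro b hb
    rcases Multiset.mem_add.1 hb with hb | hb
    · obtain ⟨s, hs, rfl⟩ := mem_spl.1 hb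
      obtain ⟨m, r, rfl⟩ := ih c (Multiset.mem_cons_self _ _)
      exact ⟨m * p, m * s + r, sb_sb _ _ _ _ _⟩
    · exact ih b (Multiset.mem_cons_of_mem hb)

section card

variable (hS : ∀ p ∈ S, Nat.Prime p)

include hS

theorem Step.card_lt {y x : Multiset (ℤ → ℤ)} (h : Step S y x) : y.card < x.card := by
  obtain ⟨p, hp, a, t, rfl, rfl⟩ := h
  have := (hS p hp).two_le
  rw [Multiset.card_cons, Multiset.card_add, card_spl]
  omega

theorem Le.card_le {y x : Multiset (ℤ → ℤ)} (h : Le S y x) : y.card ≤ x.card := by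
  induction h with
  | refl => exact le_rfl
  | tail _ h ih => exact ih.trans (h.card_lt hS).le

theorem Le.eq_of_card {y x : Multiset (ℤ → ℤ)} (h : Le S y x) (hc : x.card ≤ y.card) : y = x := by
  rcases ReflTransGen.cases_head h with h | ⟨z, h1, h2⟩
  · exact h
  · have := h1.card_lt hS
    have := Le.card_le hS h2
    omega

end card

theorem Le.exists_head {y x : Multiset (ℤ → ℤ)} (h : Le S y x) (hne : y ≠ x) :
    ∃ u, Step S y u ∧ Le S u x := by
  rcases ReflTransGen.cases_head h with h | ⟨z, h1, h2⟩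
  · exact absurd h hne
  · exact ⟨z, h1, h2⟩

theorem Le.exists_tail {y x : Multiset (ℤ → ℤ)} (h : Le S y x) (hne : y ≠ x) :
    ∃ u, Le S y u ∧ Step S u x := by
  rcases ReflTransGen.cases_tail h with h | ⟨z, h1, h2⟩
  · exact absurd h.symm hne
  · exact ⟨z, h1, h2⟩

end Pool.Agent.P8H56.CT
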